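import Mathlib

/-!
The second moment count for sets that contain a line in every direction modulo a power of two.
-/

open Finset

namespace Pool.Agent.Lib.MP_a3366f_nt.Av

theorem card_mult {D d e : ℕ} (hd : 0 < d) (h : D = d * e) :
    ((range D).filter fun x => d ∣ x).card ≤ e := by
  refine le_trans (card_le_card_of_injOn (fun x => x / d) (t := range e) ?_ ?_) (card_range e).le
  · intro x hx
    have h1 := mem_filter.1 (mem_coe.1 hx)
    refine mem_coe.2 (mem_range.2 (Nat.div_lt_of_lt_mul ?_))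
    rw [← h]; exact mem_range.1 h1.1
  · intro x hx y hy hxy
    obtain ⟨u, rfl⟩ := (mem_filter.1 (mem_coe.1 hx)).2
    obtain ⟨v, rfl⟩ := (mem_filter.1 (mem_coe.1 hy)).2
    simp only [Nat.mul_div_cancel_left _ hd] at hxy
    rw [hxy]

theorem card_zero_div (s : ℕ) :
    (((range (2 ^ s)) ×ˢ (range (2 ^ s))).filter fun p => 2 ^ s ∣ p.1 * p.2).card ≤
      (s + 1) * 2 ^ s := by
  have h1 : (((range (2 ^ s)) ×ˢ (range (2 ^ s))).filter fun p => 2 ^ s ∣ p.1 * p.2) ⊆
      (range (s + 1)).biUnion fun j => ((range (2 ^ s)).filter fun x => 2 ^ j ∣ x) ×ˢ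
        ((range (2 ^ s)).filter fun x => 2 ^ (s - j) ∣ x) := by
    intro p hp
    obtain ⟨h2, h3⟩ := mem_filter.1 hp
    obtain ⟨d, e, hd, he, hde⟩ := exists_dvd_and_dvd_of_dvd_mul h3
    obtain ⟨j, hj, rfl⟩ := (Nat.dvd_prime_pow Nat.prime_two).1 (Dvd.intro _ hde.symm)
    have h4 : e = 2 ^ (s - j) := by
      refine Nat.eq_of_mul_eq_mul_left (show 0 < 2 ^ j by positivity) ?_
      rw [← hde, ← pow_add, Nat.add_sub_cancel' hj]
    rw [mem_product] at h2
    exact mem_biUnion.2 ⟨j, mem_range.2 (by omega), mem_product.2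
      ⟨mem_filter.2 ⟨h2.1, hd⟩, mem_filter.2 ⟨h2.2, h4 ▸ he⟩⟩⟩
  refine (card_le_card h1).trans (card_biUnion_le.trans ?_)
  refine (sum_le_card_nsmul _ _ (2 ^ s) fun j hj => ?_).trans (by simp)
  have hj' : j ≤ s := by have := mem_range.1 hj; omega
  have h2 : 2 ^ s = 2 ^ j * 2 ^ (s - j) := by rw [← pow_add, Nat.add_sub_cancel' hj']
  rw [card_product]
  refine (Nat.mul_le_mul (card_mult (by positivity) h2)
    (card_mult (by positivity) (h2.trans (mul_comm _ _)))).trans ?_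
  rw [mul_comm, ← h2]

theorem card_zero_zmod (s : ℕ) :
    (univ.filter fun p : ZMod (2 ^ s) × ZMod (2 ^ s) => p.1 * p.2 = 0).card ≤ (s + 1) * 2 ^ s := by
  refine le_trans (card_le_card_of_injOn (fun p => (p.1.val, p.2.val)) ?_ ?_) (card_zero_div s)
  · intro p hp
    have h1 := (mem_filter.1 (mem_coe.1 hp)).2
    refine mem_coe.2 (mem_filter.2 ⟨mem_product.2
      ⟨mem_range.2 (ZMod.val_lt _), mem_range.2 (ZMod.val_lt _)⟩, ?_⟩)
    rw [← ZMod.natCast_eq_zero_iff]
    push_cast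
    simpa using h1
  · intro p _ q _ h
    simp only [Prod.mk.injEq] at h
    exact Prod.ext (ZMod.val_injective _ h.1) (ZMod.val_injective _ h.2)

theorem card_sol {R : Type} [CommRing R] [Fintype R] [DecidableEq R] (x e : R) :
    (univ.filter fun b => x * b = e).card ≤ (univ.filter fun b => x * b = 0).card := by
  rcases (univ.filter fun b => x * b = e).eq_empty_or_nonempty with h | ⟨b₀, h⟩
  · rw [h]; exact Nat.zero_le _
  · refine card_le_card_of_injOn (fun b => b - b₀) ?_ fun b _ b' _ h => sub_left_injective h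
    intro b hb
    refine mem_coe.2 (mem_filter.2 ⟨mem_univ _, ?_⟩)
    rw [mul_sub, (mem_filter.1 (mem_coe.1 hb)).2, (mem_filter.1 h).2, sub_self]

theorem sq_le_pairs {ι κ : Type} [Fintype ι] [DecidableEq κ] (φ : ι → κ) (Y : Finset κ)
    (h : ∀ i, φ i ∈ Y) :
    Fintype.card ι ^ 2 ≤ Y.card * (univ.filter fun p : ι × ι => φ p.1 = φ p.2).card := by
  have h1 : Fintype.card ι = ∑ y ∈ Y, (univ.filter fun i => φ i = y).card :=
    card_eq_sum_card_fiberwise fun i _ => h i
  have h2 : (univ.filter fun p : ι × ι => φ p.1 = φ p.2).card =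
      ∑ y ∈ Y, (univ.filter fun i => φ i = y).card ^ 2 := by
    rw [card_eq_sum_card_fiberwise (f := fun p : ι × ι => φ p.1) (t := Y) fun p _ => h p.1]
    refine sum_congr rfl fun y _ => ?_
    rw [sq, ← card_product]
    congr 1
    ext p
    simp only [mem_filter, mem_univ, true_and, mem_product]
    exact ⟨fun h => ⟨h.2, h.1 ▸ h.2⟩, fun h => ⟨h.1.trans h.2.symm, h.1⟩⟩
  rw [h1, h2]
  exact sq_sum_le_card_mul_sum_sq

theorem kak_zmod (s : ℕ) (Y : ZMod (2 ^ s) → Finset (ZMod (2 ^ s)))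
    (h : ∀ c, ∃ a, ∀ b, a + c * b ∈ Y b) : ∑ b, (1 : ℝ) / (Y b).card ≤ s + 1 := by
  choose a ha using h
  have hD : (0 : ℝ) < 2 ^ s := by positivity
  have h1 : ∀ b, (1 : ℝ) / (Y b).card ≤ ((univ.filter fun p : ZMod (2 ^ s) × ZMod (2 ^ s) =>
      a p.1 + p.1 * b = a p.2 + p.2 * b).card : ℝ) / (2 ^ s) ^ 2 := fun b => by
    have h2 := sq_le_pairs (fun c => a c + c * b) (Y b) fun c => ha c b
    rw [ZMod.card] at h2
    have h3 : (0 : ℝ) < (Y b).card := by exact_mod_cast card_pos.2 ⟨_, ha 0 b⟩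
    rw [div_le_div_iff₀ h3 (by positivity), one_mul, mul_comm]
    exact_mod_cast h2
  refine (sum_le_sum fun b _ => h1 b).trans ?_
  rw [← sum_div, div_le_iff₀ (by positivity)]
  have h2 : ∑ b, (univ.filter fun p : ZMod (2 ^ s) × ZMod (2 ^ s) =>
      a p.1 + p.1 * b = a p.2 + p.2 * b).card ≤ (s + 1) * (2 ^ s) ^ 2 := by
    simp only [card_filter]
    rw [sum_comm]
    have h3 : ∀ p : ZMod (2 ^ s) × ZMod (2 ^ s),
        (∑ b, if a p.1 + p.1 * b = a p.2 + p.2 * b then 1 else 0) ≤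
          ∑ b, if (p.1 - p.2) * b = 0 then 1 else 0 := fun p => by
      rw [← card_filter, ← card_filter]
      refine le_trans (card_le_card fun b hb => ?_) (card_sol (p.1 - p.2) (a p.2 - a p.1))
      exact mem_filter.2 ⟨mem_univ _, by linear_combination (mem_filter.1 hb).2⟩
    refine (sum_le_sum fun p _ => h3 p).trans ?_
    rw [Fintype.sum_prod_type_right]
    have h4 : ∀ y : ZMod (2 ^ s), (∑ x : ZMod (2 ^ s), ∑ b, if (x - y) * b = 0 then 1 else 0) ≤
        (s + 1) * 2 ^ s := fun y => by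
      rw [← Equiv.sum_comp (Equiv.addRight y)]
      simp only [Equiv.coe_addRight, add_sub_cancel_right]
      rw [← Fintype.sum_prod_type', ← card_filter]
      exact card_zero_zmod s
    refine (sum_le_card_nsmul _ _ _ fun y _ => h4 y).trans (le_of_eq ?_)
    rw [card_univ, ZMod.card, smul_eq_mul]
    ring
  exact_mod_cast h2

/-- A family of sets of residues that contains a line in every direction has large members. -/
theorem kak (s : ℕ) (Y : ℕ → Finset ℕ)
    (h : ∀ c : ℕ, ∃ a : ℕ, ∀ b < 2 ^ s, ∃ y ∈ Y b, y ≡ a + c * b [MOD 2 ^ s]) :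
    ∑ b ∈ range (2 ^ s), (1 : ℝ) / (Y b).card ≤ s + 1 := by
  refine le_trans ?_ (kak_zmod s (fun b => (Y b.val).image Nat.cast) fun c => ?_)
  · have h1 : ∑ b ∈ range (2 ^ s), (1 : ℝ) / (Y b).card =
        ∑ b : ZMod (2 ^ s), (1 : ℝ) / (Y b.val).card := by
      refine (sum_nbij (fun b : ZMod (2 ^ s) => b.val) (fun b _ => mem_range.2 (ZMod.val_lt _))
        (fun b _ b' _ h => ZMod.val_injective _ h) (fun b hb => ?_) fun _ _ => rfl).symm
      exact ⟨b, mem_coe.2 (mem_univ _), ZMod.val_natCast_of_lt (mem_range.1 (mem_coe.1 hb))⟩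
    rw [h1]
    refine sum_le_sum fun b _ => one_div_le_one_div_of_le ?_ (by exact_mod_cast card_image_le)
    obtain ⟨a, ha⟩ := h 0
    obtain ⟨y, hy, -⟩ := ha _ (ZMod.val_lt b)
    exact_mod_cast card_pos.2 ⟨_, mem_image_of_mem _ hy⟩
  · obtain ⟨a, ha⟩ := h c.val
    refine ⟨a, fun b => ?_⟩
    obtain ⟨y, hy, h1⟩ := ha _ (ZMod.val_lt b)
    refine mem_image.2 ⟨y, hy, ?_⟩
    rw [(ZMod.natCast_eq_natCast_iff _ _ _).2 h1]
    push_cast
    simp

end Pool.Agent.Lib.MP_a3366f_nt.Av
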