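import Mathlib
import Pool.Agent.Lib.MP_a3366f_nt.Link
import Pool.Agent.Lib.MP_a3366f_nt.Av.Kak

/-!
Iteration of the one block estimate over the binary digits of the exponent.
-/

open Finset PowerSeries

namespace Pool.Agent.Lib.MP_a3366f_nt.Av

/-- The number of nonzero coefficients below `Y`. -/
noncomputable def NN (g : S2) (Y : ℕ) : ℕ := ((range Y).filter fun n => coeff n g ≠ 0).card

/-- The section of `g` along the progression `D * n + a`. -/
noncomputable def sec (D a : ℕ) (g : S2) : S2 := PowerSeries.mk fun n => coeff (D * n + a) g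

/-- Some coefficient of index at most `o` is not zero. -/
def Lo (g : S2) (o : ℕ) : Prop := ∃ n ≤ o, coeff n g ≠ 0

/-- In every direction some line consists of sections of small order. -/
def Line (θ : S2) (s C : ℕ) : Prop := ∀ (g : S2) (o : ℕ), Lo g o → ∀ c : ℕ, ∃ a : ℕ, ∀ b < 2 ^ s,
  ∃ n ≤ o + C, n ≡ a + c * b [MOD 2 ^ s] ∧ coeff n (g * θ ^ b) ≠ 0

theorem NN_mono (g : S2) {Y Z : ℕ} (h : Y ≤ Z) : NN g Y ≤ NN g Z :=
  card_le_card (filter_subset_filter _ (range_subset_range.2 h))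

theorem Lo.pos {g : S2} {o Y : ℕ} (h : Lo g o) (hY : o < Y) : 0 < NN g Y := by
  obtain ⟨n, hn, h1⟩ := h
  exact card_pos.2 ⟨n, mem_filter.2 ⟨mem_range.2 (by omega), h1⟩⟩

theorem Lo.mul {g u : S2} {o : ℕ} (h : Lo g o) (hu : constantCoeff u = 1) : Lo (g * u) o := by
  classical
  have h1 : ∃ n, coeff n g ≠ 0 := h.imp fun _ h => h.2
  obtain ⟨n, hn, h2⟩ := h
  refine ⟨Nat.find h1, (Nat.find_min' h1 h2).trans hn, ?_⟩
  rw [coeff_mul, sum_eq_single (Nat.find h1, 0)]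
  · rw [coeff_zero_eq_constantCoeff_apply, hu, mul_one]
    exact Nat.find_spec h1
  · intro p hp hne
    have h3 := mem_antidiagonal.1 hp
    have h4 : p.1 < Nat.find h1 := by
      by_contra h4
      exact hne (Prod.ext (by dsimp only; omega) (by dsimp only; omega))
    rw [not_not.1 (Nat.find_min h1 h4), zero_mul]
  · intro h3
    exact absurd (HasAntidiagonal.mem_antidiagonal.2 (add_zero _)) h3

theorem sec_mul {D a : ℕ} (hD : D ≠ 0) (ha : a < D) (g u : S2) :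
    sec D a (g * expand D hD u) = sec D a g * u := by
  ext n
  rw [sec, coeff_mk, coeff_mul, coeff_mul]
  simp only [coeff_expand, mul_ite, mul_zero, sec, coeff_mk]
  rw [← sum_filter]
  refine (sum_nbij (fun p => (D * p.1 + a, D * p.2)) ?_ ?_ ?_ ?_).symm
  · intro p hp
    refine mem_filter.2 ⟨mem_antidiagonal.2 ?_, dvd_mul_right _ _⟩
    rw [← mem_antidiagonal.1 hp]
    ring
  · intro p _ q _ h
    simp only [Prod.mk.injEq, add_left_inj, mul_right_inj' hD] at h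
    exact Prod.ext h.1 h.2
  · intro p hp
    obtain ⟨h1, l, h2⟩ := mem_filter.1 (mem_coe.1 hp)
    rw [HasAntidiagonal.mem_antidiagonal, h2] at h1
    have h3 : l ≤ n := by
      by_contra h3
      have := Nat.mul_le_mul_left D (show n + 1 ≤ l by omega)
      rw [mul_add] at this
      omega
    obtain ⟨k, rfl⟩ := Nat.exists_eq_add_of_le h3
    refine ⟨(k, l), mem_coe.2 (mem_antidiagonal.2 (add_comm _ _)), Prod.ext ?_ h2.symm⟩
    rw [mul_add] at h1
    dsimp only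
    omega
  · intro p _
    rw [Nat.mul_div_cancel_left _ (Nat.pos_of_ne_zero hD)]

theorem sum_NN_le {D : ℕ} (g : S2) (A : Finset ℕ) (hA : ∀ a ∈ A, a < D) (Z : ℕ → ℕ) (Y : ℕ)
    (h : ∀ a ∈ A, ∀ n < Z a, D * n + a < Y) : ∑ a ∈ A, NN (sec D a g) (Z a) ≤ NN g Y := by
  simp only [NN]
  rw [← card_sigma]
  refine card_le_card_of_injOn (fun p => D * p.2 + p.1) ?_ ?_
  · intro p hp
    obtain ⟨h1, h2⟩ := mem_sigma.1 (mem_coe.1 hp)
    obtain ⟨h3, h4⟩ := mem_filter.1 h2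
    rw [sec, coeff_mk] at h4
    exact mem_coe.2 (mem_filter.2 ⟨mem_range.2 (h _ h1 _ (mem_range.1 h3)), h4⟩)
  · rintro ⟨a, n⟩ hp ⟨a', n'⟩ hq h1
    have h2 := hA _ (mem_sigma.1 (mem_coe.1 hp)).1
    have h3 := hA _ (mem_sigma.1 (mem_coe.1 hq)).1
    dsimp only at h1 h2 h3
    have h4 : a = a' := by
      have := congrArg (· % D) h1
      simpa only [Nat.mul_add_mod, Nat.mod_eq_of_lt h2, Nat.mod_eq_of_lt h3] using this
    subst h4
    have h5 : n = n' := Nat.eq_of_mul_eq_mul_left (show 0 < D by omega) (by omega)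
    rw [h5]

theorem sum_range_mul (f : ℕ → ℝ) (m n : ℕ) :
    ∑ t ∈ range (n * m), f t = ∑ j ∈ range m, ∑ i ∈ range n, f (n * j + i) := by
  induction m with
  | zero => simp
  | succ m ih => rw [mul_add, mul_one, sum_range_add, ih, sum_range_succ]

theorem am_hm (A : Finset ℕ) (hA : A.Nonempty) (x : ℕ → ℝ) (hx : ∀ a ∈ A, 0 < x a) :
    1 / ∑ a ∈ A, x a ≤ (∑ a ∈ A, 1 / x a) / (A.card : ℝ) ^ 2 := by
  have h2 := sq_sum_div_le_sum_sq_div A (fun _ => (1 : ℝ)) hx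
  have h3 : (0 : ℝ) < A.card := by exact_mod_cast card_pos.2 hA
  simp only [sum_const, nsmul_eq_mul, mul_one, one_pow] at h2
  rw [le_div_iff₀ (by positivity), one_div, inv_mul_eq_div]
  exact h2

theorem step {θ : S2} {s C R Z : ℕ} {A : ℝ} (hL : Line θ s C) (hθ : constantCoeff θ = 1)
    (hZ : 0 < Z)
    (ih : ∀ g o, Lo g o → ∑ b ∈ range (2 ^ R), (1 : ℝ) / NN (g * θ ^ b) (o + Z) ≤ A)
    (g : S2) (o : ℕ) (hg : Lo g o) :
    ∑ b ∈ range (2 ^ (s + R)), (1 : ℝ) / NN (g * θ ^ b) (o + (C + 2 ^ s * Z)) ≤ (s + 1) * A := by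
  classical
  have hD : 0 < 2 ^ s := by positivity
  have hA : 0 ≤ A := le_trans (sum_nonneg fun _ _ => by positivity) (ih g o hg)
  set Y : ℕ → Finset ℕ := fun b => (range (2 ^ s)).filter fun a =>
    ∃ n, 2 ^ s * n + a ≤ o + C ∧ coeff n (sec (2 ^ s) a (g * θ ^ b)) ≠ 0 with hY
  have hline : ∀ c : ℕ, ∃ a : ℕ, ∀ b < 2 ^ s, ∃ y ∈ Y b, y ≡ a + c * b [MOD 2 ^ s] := fun c => by
    obtain ⟨a, ha⟩ := hL g o hg c
    refine ⟨a, fun b hb => ?_⟩
    obtain ⟨n, h1, h2, h3⟩ := ha b hb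
    refine ⟨n % 2 ^ s, mem_filter.2 ⟨mem_range.2 (Nat.mod_lt _ hD), n / 2 ^ s, ?_, ?_⟩,
      (Nat.mod_modEq _ _).trans h2⟩
    · rwa [Nat.div_add_mod]
    · rwa [sec, coeff_mk, Nat.div_add_mod]
  rw [pow_add, sum_range_mul, sum_comm]
  refine le_trans (sum_le_sum fun b hb => ?_)
    (le_trans (le_of_eq (sum_mul _ _ _).symm) (mul_le_mul_of_nonneg_right (kak s Y hline) hA))
  have hne : (Y b).Nonempty := by
    obtain ⟨a, ha⟩ := hline 0
    obtain ⟨y, hy, -⟩ := ha b (mem_range.1 hb)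
    exact ⟨y, hy⟩
  have hc : (0 : ℝ) < (Y b).card := by exact_mod_cast card_pos.2 hne
  have h1 : ∀ a ∈ Y b, ∃ n, 2 ^ s * n + a ≤ o + C ∧ Lo (sec (2 ^ s) a (g * θ ^ b)) n :=
    fun a ha => (mem_filter.1 ha).2.imp fun n h => ⟨h.1, n, le_rfl, h.2⟩
  choose! w hw using h1
  have h2 : ∀ j, (1 : ℝ) / NN (g * θ ^ (2 ^ s * j + b)) (o + (C + 2 ^ s * Z)) ≤
      (∑ a ∈ Y b, (1 : ℝ) / NN (sec (2 ^ s) a (g * θ ^ b) * θ ^ j) (w a + Z)) /
        ((Y b).card : ℝ) ^ 2 := fun j => by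
    have h3 : ∀ a ∈ Y b, (0 : ℝ) < NN (sec (2 ^ s) a (g * θ ^ b) * θ ^ j) (w a + Z) :=
      fun a ha => by
        exact_mod_cast ((hw a ha).2.mul (by rw [map_pow, hθ, one_pow])).pos (by omega)
    refine le_trans (one_div_le_one_div_of_le (sum_pos h3 hne) ?_) (am_hm _ hne _ h3)
    have h4 := sum_NN_le (D := 2 ^ s) (g * θ ^ (2 ^ s * j + b)) (Y b)
      (fun a ha => mem_range.1 (mem_filter.1 ha).1) (fun a => w a + Z) (o + (C + 2 ^ s * Z))
      fun a ha n hn => by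
        have h5 := Nat.mul_le_mul_left (2 ^ s) (show n + 1 ≤ w a + Z by omega)
        have h6 := (hw a ha).1
        rw [mul_add, mul_add] at h5
        omega
    have h5 : ∀ a ∈ Y b, sec (2 ^ s) a (g * θ ^ (2 ^ s * j + b)) =
        sec (2 ^ s) a (g * θ ^ b) * θ ^ j := fun a ha => by
      rw [← sec_mul hD.ne' (mem_range.1 (mem_filter.1 ha).1), ← pow_two_pow]
      congr 1
      ring
    rw [sum_congr rfl fun a ha => by rw [h5 a ha]] at h4
    exact_mod_cast h4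
  refine (sum_le_sum fun j _ => h2 j).trans ?_
  rw [← sum_div, sum_comm, div_le_iff₀ (by positivity)]
  refine (sum_le_card_nsmul _ _ A fun a ha => ih _ _ (hw a ha).2).trans (le_of_eq ?_)
  rw [nsmul_eq_mul]
  field_simp

/-- The loss after all blocks. -/
noncomputable def Los (m R : ℕ) : ℝ := 2 ^ m * Real.exp (4 * m * Real.log (R + 1) ^ 2)

theorem Los_step {m s R : ℕ} (hm : 2 ≤ m) (h : s + R + 1 ≤ 2 * m * s) :
    (s + 1) * Los m R ≤ Los m (s + R) := by
  have hm' : (2 : ℝ) ≤ m := by exact_mod_cast hm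
  have h1 : ((s + R : ℕ) : ℝ) + 1 ≤ 2 * m * s := by exact_mod_cast h
  have h2 : (0 : ℝ) < R + 1 := by positivity
  have h3 : 1 ≤ 2 * m * (Real.log ((s + R : ℕ) + 1) - Real.log (R + 1)) := by
    have h4 := Real.log_le_sub_one_of_pos (x := (R + 1) / ((s + R : ℕ) + 1)) (by positivity)
    rw [Real.log_div h2.ne' (by positivity)] at h4
    have h5 : 2 * m * (((R : ℝ) + 1) / ((s + R : ℕ) + 1)) ≤ 2 * m - 1 := by
      rw [← mul_div_assoc, div_le_iff₀ (by positivity)]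
      push_cast at h1 ⊢
      nlinarith
    nlinarith
  have h4 : 0 ≤ Real.log (R + 1) := Real.log_nonneg (by linarith [Nat.cast_nonneg (α := ℝ) R])
  have h5 : (s : ℝ) + 1 ≤ Real.exp (Real.log ((s + R : ℕ) + 1)) := by
    rw [Real.exp_log (by positivity)]
    push_cast
    linarith
  have h6 : 0 ≤ Real.log ((s + R : ℕ) + 1) :=
    Real.log_nonneg (by linarith [Nat.cast_nonneg (α := ℝ) (s + R)])
  rw [Los, Los, mul_left_comm]
  refine mul_le_mul_of_nonneg_left ?_ (by positivity)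
  refine (mul_le_mul_of_nonneg_right h5 (by positivity)).trans ?_
  rw [← Real.exp_add, Real.exp_le_exp]
  nlinarith [mul_le_mul_of_nonneg_left h3 h4, mul_le_mul_of_nonneg_left h3 h6]

theorem rec_main {θ : S2} {κ m : ℕ} (hκ : 0 < κ) (hm : 2 ≤ m) (hθ : constantCoeff θ = 1)
    (hL : ∀ s, 1 ≤ s → Line θ s (κ * 2 ^ (m * s))) (R : ℕ) : ∀ g o, Lo g o →
    ∑ b ∈ range (2 ^ R), (1 : ℝ) / NN (g * θ ^ b) (o + κ * (R + 1) * 2 ^ R) ≤ Los m R := by
  induction R using Nat.strong_induction_on with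
  | _ R ih =>
  intro g o hg
  have hpos : ∀ b Z, 0 < Z → (0 : ℝ) < NN (g * θ ^ b) (o + Z) := fun b Z hZ => by
    exact_mod_cast (hg.mul (by rw [map_pow, hθ, one_pow])).pos (by omega)
  by_cases h : R < m
  · refine (sum_le_card_nsmul _ _ 1 fun b _ => ?_).trans ?_
    · rw [div_le_one (hpos b _ (by positivity))]
      exact_mod_cast Nat.succ_le_of_lt (by exact_mod_cast hpos b _ (by positivity))
    · have h1 : 2 ^ R ≤ 2 ^ m := Nat.pow_le_pow_right two_pos h.le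
      have h2 : ((2 ^ R : ℕ) : ℝ) ≤ 2 ^ m := by exact_mod_cast h1
      have h3 : 1 ≤ Real.exp (4 * m * Real.log (R + 1) ^ 2) := Real.one_le_exp (by positivity)
      rw [card_range, nsmul_eq_mul, mul_one, Los]
      exact h2.trans (le_mul_of_one_le_right (by positivity) h3)
  · obtain ⟨s, hs⟩ : ∃ s, s = R / m := ⟨_, rfl⟩
    have hs1 : 1 ≤ s := hs ▸ Nat.div_pos (not_lt.1 h) (by omega)
    have hs2 : m * s ≤ R := hs ▸ Nat.mul_div_le R m
    have hs3 : R < m * (s + 1) := hs ▸ Nat.lt_mul_div_succ R (by omega)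
    obtain ⟨T, rfl⟩ := Nat.exists_eq_add_of_le (show s ≤ R by nlinarith)
    refine le_trans (sum_le_sum fun b _ => ?_) ((step (hL s hs1) hθ (by positivity)
      (ih T (by omega)) g o hg).trans (Los_step hm (by nlinarith)))
    refine one_div_le_one_div_of_le (hpos b _ (by positivity)) ?_
    refine Nat.cast_le.2 (NN_mono _ (Nat.add_le_add_left ?_ _))
    have h1 : 2 ^ (m * s) ≤ 2 ^ (s + T) := Nat.pow_le_pow_right two_pos hs2
    calc κ * 2 ^ (m * s) + 2 ^ s * (κ * (T + 1) * 2 ^ T)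
        ≤ κ * 2 ^ (s + T) + 2 ^ s * (κ * (T + 1) * 2 ^ T) := by gcongr
      _ = κ * (1 + T + 1) * 2 ^ (s + T) := by ring
      _ ≤ κ * (s + T + 1) * 2 ^ (s + T) := by gcongr

end Pool.Agent.Lib.MP_a3366f_nt.Av
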