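import Mathlib

/-!
Second moment estimates for families of pieces of lines modulo a power of two.
-/

open Finset

namespace Pool.Agent.Lib.MP_a3366f_nt.Av

open Classical in
/-- The indicator of a proposition. -/
noncomputable def ind (p : Prop) : ℝ := if p then 1 else 0

theorem ind_pos {p : Prop} (h : p) : ind p = 1 := if_pos h

theorem ind_neg {p : Prop} (h : ¬ p) : ind p = 0 := if_neg h

theorem ind_nonneg (p : Prop) : 0 ≤ ind p := by
  unfold ind
  positivity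

theorem ind_mono {p q : Prop} (h : p → q) : ind p ≤ ind q := by
  by_cases hp : p
  · rw [ind_pos hp, ind_pos (h hp)]
  · rw [ind_neg hp]
    exact ind_nonneg q

theorem ind_le_one (p : Prop) : ind p ≤ 1 := (ind_mono fun _ => trivial).trans (ind_pos trivial).le

theorem ind_congr {p q : Prop} (h : p ↔ q) : ind p = ind q := by rw [propext h]

theorem sum_ind {α : Type} (s : Finset α) (p : α → Prop) [DecidablePred p] :
    ∑ x ∈ s, ind (p x) = (s.filter p).card := by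
  rw [← sum_boole]
  exact sum_congr rfl fun x _ => by unfold ind; congr

/-- Residues modulo `2 ^ k`. -/
abbrev RR (k : ℕ) := ZMod (2 ^ k)

variable {k : ℕ}

theorem two_pow_self : (2 : RR k) ^ k = 0 := by
  have := ZMod.natCast_self (2 ^ k)
  exact_mod_cast this

theorem dvd_cast_iff {i : ℕ} (hi : i ≤ k) (n : ℤ) : (2 : RR k) ^ i ∣ (n : RR k) ↔ 2 ^ i ∣ n := by
  refine ⟨fun ⟨z, hz⟩ => ?_, fun ⟨z, hz⟩ => ⟨z, by rw [hz]; push_cast; rfl⟩⟩
  obtain ⟨z, rfl⟩ := ZMod.intCast_surjective z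
  have h1 : ((n - 2 ^ i * z : ℤ) : RR k) = 0 := by push_cast; rw [hz, sub_self]
  rw [ZMod.intCast_zmod_eq_zero_iff_dvd] at h1
  have h2 : (2 : ℤ) ^ i ∣ n - 2 ^ i * z := (pow_dvd_pow 2 hi).trans (by exact_mod_cast h1)
  simpa using dvd_add h2 (dvd_mul_right (2 ^ i) z)

theorem dvd_val_iff {i : ℕ} (hi : i ≤ k) (x : RR k) : (2 : RR k) ^ i ∣ x ↔ 2 ^ i ∣ x.val := by
  have h := dvd_cast_iff hi (x.val : ℤ)
  rw [Int.cast_natCast, ZMod.natCast_zmod_val] at h
  rw [h]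
  exact_mod_cast Iff.rfl

open Classical in
theorem card_dvd {i : ℕ} (hi : i ≤ k) :
    (univ.filter fun x : RR k => (2 : RR k) ^ i ∣ x).card = 2 ^ (k - i) := by
  have h1 : 2 ^ i * 2 ^ (k - i) = 2 ^ k := by rw [← pow_add, Nat.add_sub_cancel' hi]
  rw [← card_range (2 ^ (k - i))]
  refine (card_nbij (fun u => ((2 ^ i * u : ℕ) : RR k)) ?_ ?_ ?_).symm
  · intro u _
    exact mem_coe.2 (mem_filter.2 ⟨mem_univ _, u, by push_cast; rfl⟩)
  · intro u hu v hv h
    have h2 : ∀ w ∈ range (2 ^ (k - i)), 2 ^ i * w < 2 ^ k := fun w hw => by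
      rw [← h1]; exact Nat.mul_lt_mul_of_pos_left (mem_range.1 hw) (by positivity)
    have h3 := congrArg ZMod.val h
    rw [ZMod.val_natCast_of_lt (h2 u hu), ZMod.val_natCast_of_lt (h2 v hv)] at h3
    exact Nat.eq_of_mul_eq_mul_left (by positivity) h3
  · intro x hx
    obtain ⟨u, hu⟩ := (dvd_val_iff hi x).1 (mem_filter.1 (mem_coe.1 hx)).2
    refine ⟨u, mem_coe.2 (mem_range.2 ?_), by dsimp only; rw [← hu, ZMod.natCast_zmod_val]⟩
    refine Nat.lt_of_mul_lt_mul_left (a := 2 ^ i) ?_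
    rw [h1, ← hu]
    exact ZMod.val_lt x

theorem sum_dvd {i : ℕ} (hi : i ≤ k) (x : RR k) :
    ∑ a : RR k, ind ((2 : RR k) ^ i ∣ x - a) = 2 ^ (k - i) := by
  classical
  rw [← Equiv.sum_comp (Equiv.subLeft x)]
  simp only [Equiv.subLeft_apply, sub_sub_cancel]
  rw [sum_ind, card_dvd hi]
  push_cast
  rfl

theorem sum_pairs {j : ℕ} (hj : j ≤ k) :
    ∑ c : RR k, ∑ c' : RR k, ∑ b : RR k, ind ((2 : RR k) ^ j ∣ (c - c') * b) ≤
      (j + 1) * 2 ^ (k - j) * 4 ^ k := by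
  have h1 : ∑ x : RR k, ∑ b : RR k, ind ((2 : RR k) ^ j ∣ x * b) ≤
      (j + 1) * 2 ^ (k - j) * 2 ^ k := by
    have h2 : ∀ x b : RR k, ind ((2 : RR k) ^ j ∣ x * b) ≤ ∑ u ∈ range (j + 1),
        ind ((2 : RR k) ^ u ∣ 0 - x) * ind ((2 : RR k) ^ (j - u) ∣ 0 - b) := fun x b => by
      have h0 : ∀ u ∈ range (j + 1), 0 ≤ ind ((2 : RR k) ^ u ∣ 0 - x) *
          ind ((2 : RR k) ^ (j - u) ∣ 0 - b) := fun u _ => mul_nonneg (ind_nonneg _) (ind_nonneg _)
      by_cases h : (2 : RR k) ^ j ∣ x * b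
      · have h3 : 2 ^ j ∣ x.val * b.val := by
          have h4 := (dvd_cast_iff hj ((x.val * b.val : ℕ) : ℤ)).1 (by simpa using h)
          exact_mod_cast h4
        obtain ⟨d, e, hd, he, hde⟩ := exists_dvd_and_dvd_of_dvd_mul h3
        obtain ⟨u, hu, rfl⟩ := (Nat.dvd_prime_pow Nat.prime_two).1 (Dvd.intro _ hde.symm)
        have h4 : e = 2 ^ (j - u) := by
          refine Nat.eq_of_mul_eq_mul_left (show 0 < 2 ^ u by positivity) ?_
          rw [← hde, ← pow_add, Nat.add_sub_cancel' hu]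
        refine le_trans (le_of_eq ?_) (single_le_sum h0 (mem_range.2 (Nat.lt_succ_of_le hu)))
        rw [zero_sub, zero_sub, ind_pos (dvd_neg.2 ((dvd_val_iff (by omega) x).2 hd)),
          ind_pos (dvd_neg.2 ((dvd_val_iff (by omega) b).2 (h4 ▸ he))), one_mul, ind_pos h]
      · rw [ind_neg h]
        exact sum_nonneg h0
    refine (sum_le_sum fun x _ => sum_le_sum fun b _ => h2 x b).trans (le_of_eq ?_)
    simp only [sum_comm (t := range (j + 1)), ← mul_sum, ← sum_mul]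
    rw [sum_congr rfl (g := fun _ => (2 : ℝ) ^ (k - j) * 2 ^ k), sum_const, card_range,
      nsmul_eq_mul]
    · push_cast; ring
    · intro u hu
      have hu' := mem_range.1 hu
      rw [sum_dvd (by omega), sum_dvd (by omega), ← pow_add, ← pow_add]
      congr 1
      omega
  rw [sum_comm]
  have h2 : ∀ c' : RR k, ∑ c : RR k, ∑ b : RR k,
      ind ((2 : RR k) ^ j ∣ (c - c') * b) ≤ (j + 1) * 2 ^ (k - j) * 2 ^ k := fun c' => by
    rw [← Equiv.sum_comp (Equiv.addRight c')]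
    simpa only [Equiv.coe_addRight, add_sub_cancel_right] using h1
  refine (sum_le_card_nsmul _ _ _ fun c' _ => h2 c').trans (le_of_eq ?_)
  rw [card_univ, ZMod.card, nsmul_eq_mul, show (4 : ℝ) = 2 * 2 by norm_num, mul_pow]
  push_cast
  ring

theorem sum_shift (d x e : RR k) (p : RR k → Prop) :
    ∑ b : RR k, ind (p b ∧ d ∣ e + x * b) ≤ ∑ b : RR k, ind (d ∣ x * b) := by
  by_cases h : ∃ b₀, d ∣ e + x * b₀
  · obtain ⟨b₀, h⟩ := h
    rw [← Equiv.sum_comp (Equiv.addRight b₀)]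
    refine sum_le_sum fun b _ => ind_mono fun h1 => ?_
    have := dvd_sub h1.2 h
    rwa [Equiv.coe_addRight, show e + x * (b + b₀) - (e + x * b₀) = x * b by ring] at this
  · rw [sum_eq_zero fun b _ => ind_neg fun h1 => h ⟨b, h1.2⟩]
    exact sum_nonneg fun _ _ => ind_nonneg _

theorem sum_cancel {l : ℕ} (hl : 2 * l ≤ k) {x : RR k} (hx : ¬ (2 : RR k) ^ l ∣ x) (e : RR k)
    (p : RR k → Prop) (hp : ∀ b z, p b → p (b + 2 ^ l * z)) :
    2 ^ (k - 2 * l) * ∑ b : RR k, ind (p b ∧ (2 : RR k) ^ k ∣ e + x * b) ≤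
      ∑ b : RR k, ind (p b ∧ (2 : RR k) ^ (2 * l) ∣ e + x * b) := by
  classical
  have h0 : x.val ≠ 0 := fun h => hx ((dvd_val_iff (by omega) x).2 (h ▸ dvd_zero _))
  obtain ⟨v, u, hu, hvu⟩ := Nat.exists_eq_two_pow_mul_odd h0
  have hv : v ≤ l := by
    by_contra hv
    exact hx ((dvd_val_iff (by omega) x).2
      (hvu ▸ (pow_dvd_pow 2 (by omega)).trans (dvd_mul_right _ _)))
  have hun : IsUnit (u : RR k) :=
    (ZMod.isUnit_iff_coprime _ _).2 ((Nat.coprime_two_right.2 hu).pow_right k)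
  obtain ⟨w, hw⟩ := hun.exists_right_inv
  have hx' : x = 2 ^ v * u := by
    rw [← ZMod.natCast_zmod_val x, hvu]
    push_cast
    rfl
  have h1 : ∀ y : RR k, (2 : RR k) ^ (2 * l) ∣ y → ∃ z, x * (2 ^ l * z) = y := by
    rintro _ ⟨y, rfl⟩
    obtain ⟨f, rfl⟩ := Nat.exists_eq_add_of_le hv
    exact ⟨2 ^ f * w * y, by rw [hx']; linear_combination (2 ^ (2 * (v + f)) * y) * hw⟩
  choose! z hz using h1
  rw [sum_ind, sum_ind]
  have h2 := card_dvd hl
  have h3 : (univ.filter fun y : RR k => (2 : RR k) ^ (2 * l) ∣ y).card *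
      (univ.filter fun b : RR k => p b ∧ (2 : RR k) ^ k ∣ e + x * b).card ≤
      (univ.filter fun b : RR k => p b ∧ (2 : RR k) ^ (2 * l) ∣ e + x * b).card := by
    rw [← card_product]
    have h4 : ∀ q ∈ (univ.filter fun y : RR k => (2 : RR k) ^ (2 * l) ∣ y) ×ˢ
        (univ.filter fun b : RR k => p b ∧ (2 : RR k) ^ k ∣ e + x * b),
        e + x * (q.2 + 2 ^ l * z q.1) = q.1 := fun q hq => by
      obtain ⟨h4, h5⟩ := mem_product.1 hq
      have h6 := (mem_filter.1 h5).2.2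
      rw [two_pow_self, zero_dvd_iff] at h6
      linear_combination h6 + hz _ (mem_filter.1 h4).2
    refine card_le_card_of_injOn (fun q => q.2 + 2 ^ l * z q.1) ?_ ?_
    · intro q hq
      obtain ⟨h5, h6⟩ := mem_product.1 (mem_coe.1 hq)
      refine mem_coe.2 (mem_filter.2 ⟨mem_univ _, hp _ _ (mem_filter.1 h6).2.1, ?_⟩)
      rw [h4 q hq]
      exact (mem_filter.1 h5).2
    · intro q hq q' hq' h
      dsimp only at h
      have h5 : q.1 = q'.1 := by rw [← h4 q hq, ← h4 q' hq', h]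
      rw [h5] at h
      exact Prod.ext h5 (add_right_cancel h)
  rw [h2] at h3
  exact_mod_cast h3

section

variable {O : Type} (e : RR k × O → RR k) (S : RR k × O → RR k → Prop)

/-- The number of common points of two pieces, at depth `i`. -/
noncomputable def nu (i : ℕ) (ι ι' : RR k × O) : ℝ :=
  ∑ b, ind ((S ι b ∧ S ι' b) ∧ (2 : RR k) ^ i ∣ e ι - e ι' + (ι.1 - ι'.1) * b)

theorem nu_nonneg (i : ℕ) (ι ι' : RR k × O) : 0 ≤ nu e S i ι ι' :=
  sum_nonneg fun _ _ => ind_nonneg _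

variable [Fintype O]

/-- The number of pieces of lines through a point, at depth `i`. -/
noncomputable def mu (i : ℕ) (b a : RR k) : ℝ :=
  ∑ ι, ind (S ι b ∧ (2 : RR k) ^ i ∣ e ι + ι.1 * b - a)

theorem sum_mu_mul {i j : ℕ} (hi : i ≤ k) (hj : j ≤ i) :
    ∑ b, ∑ a, mu e S i b a * mu e S j b a = 2 ^ (k - i) * ∑ ι, ∑ ι', nu e S j ι ι' := by
  simp only [mu, sum_mul_sum]
  simp only [nu, mul_sum]
  rw [sum_congr rfl fun b _ => sum_comm, sum_comm]
  refine sum_congr rfl fun ι _ => ?_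
  rw [sum_congr rfl fun b _ => sum_comm, sum_comm]
  refine sum_congr rfl fun ι' _ => sum_congr rfl fun b _ => ?_
  rw [← sum_dvd hi (e ι + ι.1 * b), sum_mul]
  refine sum_congr rfl fun a _ => ?_
  by_cases h : (2 : RR k) ^ i ∣ e ι + ι.1 * b - a
  · have h1 := (pow_dvd_pow (2 : RR k) hj).trans h
    have h2 : (2 : RR k) ^ j ∣ e ι' + ι'.1 * b - a ↔
        (2 : RR k) ^ j ∣ e ι - e ι' + (ι.1 - ι'.1) * b := by
      rw [show e ι - e ι' + (ι.1 - ι'.1) * b = e ι + ι.1 * b - a - (e ι' + ι'.1 * b - a) by ring,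
        dvd_sub_right h1]
    by_cases h3 : S ι b
    · rw [ind_pos h, ind_pos ⟨h3, h⟩, one_mul, one_mul]
      exact ind_congr (by rw [h2]; simp only [h3, true_and])
    · rw [ind_neg fun h4 => h3 h4.1, ind_neg (p := (S ι b ∧ _) ∧ _) fun h4 => h3 h4.1.1, zero_mul,
        mul_zero]
  · rw [ind_neg h, ind_neg fun h4 => h h4.2, zero_mul, zero_mul]

theorem sum_mu {j : ℕ} (hj : j ≤ k) {p : ℕ} (hS : ∀ ι, (2 : ℝ) ^ k ≤ 2 ^ p * ∑ b, ind (S ι b)) :
    2 ^ (k - j) * Fintype.card O * 4 ^ k ≤ 2 ^ p * ∑ b, ∑ a, mu e S j b a := by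
  have h1 : ∑ b, ∑ a, mu e S j b a = ∑ ι, 2 ^ (k - j) * ∑ b, ind (S ι b) := by
    simp only [mu, mul_sum]
    rw [sum_congr rfl fun b _ => sum_comm, sum_comm]
    refine sum_congr rfl fun ι _ => sum_congr rfl fun b _ => ?_
    by_cases h : S ι b
    · simp only [h, true_and, ind_pos, mul_one]
      exact sum_dvd hj _
    · rw [ind_neg h, mul_zero]
      exact sum_eq_zero fun a _ => ind_neg fun h4 => h h4.1
  rw [h1, mul_sum]
  refine le_trans (le_of_eq ?_) (card_nsmul_le_sum _ _ ((2 : ℝ) ^ (k - j) * 2 ^ k) fun ι _ => ?_)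
  · rw [card_univ, Fintype.card_prod, ZMod.card, nsmul_eq_mul, show (4 : ℝ) = 2 * 2 by norm_num,
      mul_pow]
    push_cast
    ring
  · rw [mul_left_comm]
    exact mul_le_mul_of_nonneg_left (hS ι) (by positivity)

theorem sum_nu {j : ℕ} (hj : j ≤ k) :
    ∑ ι, ∑ ι', nu e S j ι ι' ≤ Fintype.card O ^ 2 * ((j + 1) * 2 ^ (k - j) * 4 ^ k) := by
  refine (sum_le_sum fun ι _ => sum_le_sum fun ι' _ => (sum_shift _ _ _ _ :
    nu e S j ι ι' ≤ ∑ b, ind ((2 : RR k) ^ j ∣ (ι.1 - ι'.1) * b))).trans ?_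
  refine le_trans (le_of_eq ?_) (mul_le_mul_of_nonneg_left (sum_pairs hj) (by positivity))
  rw [Fintype.sum_prod_type, mul_sum]
  refine sum_congr rfl fun c _ => ?_
  simp only [Fintype.sum_prod_type]
  rw [sum_const, card_univ, nsmul_eq_mul, sq, mul_assoc]
  congr 1
  rw [mul_sum]
  exact sum_congr rfl fun c' _ => by rw [sum_const, card_univ, nsmul_eq_mul]

theorem sum_nu_sub {l : ℕ} (hl : 2 * l ≤ k) (hp : ∀ ι b z, S ι b → S ι (b + 2 ^ l * z))
    (hu : ∀ c c' o o' o'', (2 : RR k) ^ l ∣ c - c' → (2 : RR k) ^ l ∣ e (c, o) - e (c', o') →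
      (2 : RR k) ^ l ∣ e (c, o) - e (c', o'') → o' = o'') :
    2 ^ (k - 2 * l) * ∑ ι, ∑ ι', nu e S k ι ι' - ∑ ι, ∑ ι', nu e S (2 * l) ι ι' ≤
      2 ^ (k - 2 * l) * (Fintype.card O * ((k + 1) * 4 ^ k)) := by
  have h1 : ∀ c c' o, ∑ o', (2 ^ (k - 2 * l) * nu e S k (c, o) (c', o') -
      nu e S (2 * l) (c, o) (c', o')) ≤
      2 ^ (k - 2 * l) * ∑ b, ind ((2 : RR k) ^ k ∣ (c - c') * b) := by
    intro c c' o
    have h0 : 0 ≤ ∑ b, ind ((2 : RR k) ^ k ∣ (c - c') * b) := sum_nonneg fun _ _ => ind_nonneg _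
    by_cases h : (2 : RR k) ^ l ∣ c - c'
    · refine (sum_le_sum fun o' _ => sub_le_self _ (nu_nonneg e S _ _ _)).trans ?_
      rw [← mul_sum]
      refine mul_le_mul_of_nonneg_left ?_ (by positivity)
      have h2 : ∀ o', ¬ (2 : RR k) ^ l ∣ e (c, o) - e (c', o') → nu e S k (c, o) (c', o') = 0 :=
        fun o' h2 => sum_eq_zero fun b _ => ind_neg fun h3 => h2 <| by
          have h4 := (pow_dvd_pow (2 : RR k) (show l ≤ k by omega)).trans h3.2
          exact (dvd_add_left (h.mul_right b)).1 h4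
      by_cases h3 : ∃ o', (2 : RR k) ^ l ∣ e (c, o) - e (c', o')
      · obtain ⟨o', h3⟩ := h3
        rw [sum_eq_single o' (fun o'' _ hne => h2 _ fun h4 => hne (hu _ _ _ _ _ h h4 h3))
          fun h4 => absurd (mem_univ _) h4]
        exact sum_shift _ _ _ _
      · rw [sum_eq_zero fun o' _ => h2 _ fun h4 => h3 ⟨_, h4⟩]
        exact h0
    · refine (sum_nonpos fun o' _ => sub_nonpos.2 ?_).trans (by positivity)
      exact sum_cancel hl h (e (c, o) - e (c', o')) (fun b => S (c, o) b ∧ S (c', o') b)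
        fun b z hb => ⟨hp _ _ _ hb.1, hp _ _ _ hb.2⟩
  have h2 := sum_pairs (k := k) le_rfl
  rw [Nat.sub_self, pow_zero, mul_one] at h2
  simp only [mul_sum, ← sum_sub_distrib, Fintype.sum_prod_type]
  refine (sum_le_sum fun c _ => sum_le_sum fun o _ => sum_le_sum fun c' _ => h1 c c' o).trans ?_
  simp only [sum_const, card_univ, nsmul_eq_mul, ← mul_sum]
  rw [mul_left_comm]
  gcongr

/-- Many points are covered often at depth `2 * l`, and almost all of them are covered at depth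
`k`. -/
theorem round {l p : ℕ} (hl : 2 * l ≤ k) (hO : 0 < Fintype.card O)
    (hS : ∀ ι, (2 : ℝ) ^ k ≤ 2 ^ p * ∑ b, ind (S ι b))
    (hp : ∀ ι b z, S ι b → S ι (b + 2 ^ l * z))
    (hu : ∀ c c' o o' o'', (2 : RR k) ^ l ∣ c - c' → (2 : RR k) ^ l ∣ e (c, o) - e (c', o') →
      (2 : RR k) ^ l ∣ e (c, o) - e (c', o'') → o' = o'') :
    ∃ τ : ℝ, 4 ^ k ≤ 4 ^ (p + 1) * (2 * l + 1) * ∑ b, ∑ a, ind (τ ≤ mu e S (2 * l) b a) ∧
      Fintype.card O * ∑ b, ∑ a, ind (τ ≤ mu e S (2 * l) b a ∧ mu e S k b a = 0)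
        ≤ 4 ^ (p + 1) * (k + 1) * 4 ^ k := by
  obtain ⟨M, hM⟩ : ∃ M : ℝ, M = 2 ^ (k - 2 * l) := ⟨_, rfl⟩
  obtain ⟨N, hN⟩ : ∃ N : ℝ, N = Fintype.card O := ⟨_, rfl⟩
  obtain ⟨P, hP⟩ : ∃ P : ℝ, P = 2 ^ p := ⟨_, rfl⟩
  have hM0 : 0 < M := by rw [hM]; positivity
  have hN0 : 0 < N := by rw [hN]; exact_mod_cast hO
  have hP0 : 0 < P := by rw [hP]; positivity
  have h4 : (4 : ℝ) ^ (p + 1) = (2 * P) ^ 2 := by
    rw [hP, show (4 : ℝ) = 2 ^ 2 by norm_num, ← pow_mul]; ring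
  have hK : (0 : ℝ) < 4 ^ k := by positivity
  refine ⟨M * N / (2 * P), ?_, ?_⟩
  · have h1 := sum_mu e S hl hS
    have h2 := sum_mu_mul e S hl le_rfl
    have h3 := mul_le_mul_of_nonneg_left (sum_nu e S hl) hM0.le
    rw [← hM] at h1 h2 h3
    rw [← h2, ← hN] at h3
    rw [← hN, ← hP] at h1
    simp only [← Fintype.sum_prod_type'] at h1 h3 ⊢
    set f : RR k × RR k → ℝ := fun x => mu e S (2 * l) x.1 x.2 with hf
    set χ : RR k × RR k → ℝ := fun x => ind (M * N / (2 * P) ≤ f x) with hχ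
    have h5 := sum_mul_sq_le_sq_mul_sq univ χ f
    have h6 : ∑ x, χ x ^ 2 ≤ ∑ x, χ x := sum_le_sum fun x _ =>
      pow_le_of_le_one (ind_nonneg _) (ind_le_one _) two_ne_zero
    have h7 : ∑ x, f x ≤ ∑ x, χ x * f x + 4 ^ k * (M * N / (2 * P)) := by
      have h8 : (4 : ℝ) ^ k * (M * N / (2 * P)) = ∑ _x : RR k × RR k, M * N / (2 * P) := by
        rw [sum_const, card_univ, Fintype.card_prod, ZMod.card, nsmul_eq_mul,
          show (4 : ℝ) = 2 * 2 by norm_num, mul_pow]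
        push_cast
        rfl
      rw [h8, ← sum_add_distrib]
      refine sum_le_sum fun x _ => ?_
      simp only [hχ]
      by_cases h : M * N / (2 * P) ≤ f x
      · rw [ind_pos h, one_mul]; exact le_add_of_nonneg_right (by positivity)
      · rw [ind_neg h, zero_mul, zero_add]; exact (not_le.1 h).le
    have h8 : M * N * 4 ^ k ≤ 2 * P * ∑ x, χ x * f x := by
      have h9 : 2 * P * (4 ^ k * (M * N / (2 * P))) = M * N * 4 ^ k := by field_simp
      nlinarith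
    have h9 : ∑ x, f x ^ 2 ≤ M * (N ^ 2 * ((2 * l + 1) * M * 4 ^ k)) := by
      simpa only [sq, Nat.cast_mul, Nat.cast_ofNat] using h3
    have h10 : 0 ≤ ∑ x, χ x := sum_nonneg fun x _ => ind_nonneg _
    have h11 : (M * N * 4 ^ k) ^ 2 ≤ (2 * P) ^ 2 * ((∑ x, χ x) *
        (M * (N ^ 2 * ((2 * l + 1) * M * 4 ^ k)))) := by
      refine (pow_le_pow_left₀ (by positivity) h8 2).trans ?_
      rw [mul_pow]
      refine mul_le_mul_of_nonneg_left (h5.trans ?_) (by positivity)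
      exact mul_le_mul h6 h9 (sum_nonneg fun _ _ => sq_nonneg _) h10
    rw [h4]
    refine le_of_mul_le_mul_left ?_ (show 0 < (M * N) ^ 2 * 4 ^ k by positivity)
    calc (M * N) ^ 2 * 4 ^ k * 4 ^ k = (M * N * 4 ^ k) ^ 2 := by ring
      _ ≤ _ := h11
      _ = _ := by ring
  · have h1 := sum_mu_mul e S (le_refl k) le_rfl
    have h2 := sum_mu_mul e S (le_refl k) hl
    have h3 := sum_mu_mul e S hl le_rfl
    have h5 := mul_le_mul_of_nonneg_left (sum_nu_sub e S hl hp hu) hM0.le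
    rw [Nat.sub_self, pow_zero, one_mul] at h1 h2
    rw [← hM] at h3 h5
    rw [← hN] at h5 ⊢
    have h6 : ∑ b, ∑ a, (M * mu e S k b a - mu e S (2 * l) b a) ^ 2 =
        M ^ 2 * ∑ b, ∑ a, mu e S k b a * mu e S k b a -
          2 * M * ∑ b, ∑ a, mu e S k b a * mu e S (2 * l) b a +
          ∑ b, ∑ a, mu e S (2 * l) b a * mu e S (2 * l) b a := by
      simp only [mul_sum, ← sum_sub_distrib, ← sum_add_distrib]
      exact sum_congr rfl fun b _ => sum_congr rfl fun a _ => by ring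
    have h7 : (M * N / (2 * P)) ^ 2 * ∑ b, ∑ a,
        ind (M * N / (2 * P) ≤ mu e S (2 * l) b a ∧ mu e S k b a = 0) ≤
        ∑ b, ∑ a, (M * mu e S k b a - mu e S (2 * l) b a) ^ 2 := by
      simp only [mul_sum]
      refine sum_le_sum fun b _ => sum_le_sum fun a _ => ?_
      by_cases h : M * N / (2 * P) ≤ mu e S (2 * l) b a ∧ mu e S k b a = 0
      · rw [ind_pos h, h.2, mul_zero, zero_sub, neg_sq, mul_one]
        exact pow_le_pow_left₀ (by positivity) h.1 2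
      · rw [ind_neg h, mul_zero]; positivity
    rw [h6, h1, h2, h3] at h7
    rw [h4]
    refine le_of_mul_le_mul_left ?_ (show 0 < M ^ 2 * N / (2 * P) ^ 2 by positivity)
    calc _ = (M * N / (2 * P)) ^ 2 * _ := by rw [← mul_assoc]; congr 1; field_simp
      _ ≤ _ := h7
      _ ≤ M * (M * (N * ((k + 1) * 4 ^ k))) := by linarith
      _ = _ := by field_simp

end

end Pool.Agent.Lib.MP_a3366f_nt.Av
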