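import Mathlib
import Pool.Agent.Lib.MP_a3366f_nt.Av.Rec
import Pool.Agent.Lib.MP_a3366f_nt.Av.Round

/-!
A section that has a nonzero coefficient of small index rarely loses it one level further.
-/

open Finset PowerSeries

namespace Pool.Agent.Lib.MP_a3366f_nt.Av

/-- In every direction, a family of lines each of which meets, on a whole residue class of rows,
sections of small order. -/
def Fat (θ : S2) (k C : ℕ) : Prop := ∀ (g : S2) (T : ℕ), Lo g T → ∀ c : ℕ, ∃ r : ℕ,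
  ∀ (l : ℕ) (P : Finset ℕ) (β : ℕ), l ≤ k → (∀ i ∈ P, i < l) → ∃ E ⊆ P, ∀ b < 2 ^ k,
    b ≡ β + ∑ i ∈ E, 2 ^ i [MOD 2 ^ l] → ∃ n ≤ T + C,
      n + 8 * c * (∑ i ∈ P, 2 ^ i) ≡ r + (∑ i ∈ P, 2 ^ i) + c * b [MOD 2 ^ k] ∧
        coeff n (g * θ ^ b) ≠ 0

/-- The class of `a` modulo `2 ^ s` contains the index, at most `T`, of a nonzero coefficient. -/
def Nz (g : S2) (a s T : ℕ) : Prop := ∃ n ≤ T, n ≡ a [MOD 2 ^ s] ∧ coeff n g ≠ 0

/-- A bound for the share of points that are alive at depth `s` and lost at depth `k`. -/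
def Lam (θ : S2) (s k K C : ℕ) (ε : ℝ) : Prop := ∀ (g : S2) (T : ℕ),
  ∑ b ∈ range (2 ^ K), ∑ a ∈ range (2 ^ K),
    ind (Nz (g * θ ^ b) a s T ∧ ¬ Nz (g * θ ^ b) a k (T + C)) ≤ ε * 4 ^ K

theorem Lo.of_mul {g u : S2} {o : ℕ} (h : Lo (g * u) o) : Lo g o := by
  obtain ⟨n, hn, h⟩ := h
  rw [coeff_mul] at h
  obtain ⟨p, hp, h1⟩ := exists_ne_zero_of_sum_ne_zero h
  have h2 := HasAntidiagonal.mem_antidiagonal.1 hp
  exact ⟨p.1, by omega, left_ne_zero_of_mul h1⟩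

theorem sum_range_cast {k : ℕ} (f : RR k → ℝ) : ∑ b ∈ range (2 ^ k), f b = ∑ b, f b := by
  refine sum_nbij (fun b : ℕ => (b : RR k)) (fun _ _ => mem_univ _) (fun b hb b' hb' h => ?_)
    (fun b _ => ⟨b.val, mem_coe.2 (mem_range.2 (ZMod.val_lt b)), ZMod.natCast_zmod_val b⟩)
    fun _ _ => rfl
  have h1 := congrArg ZMod.val h
  rwa [ZMod.val_natCast_of_lt (mem_range.1 hb), ZMod.val_natCast_of_lt (mem_range.1 hb')] at h1

theorem round_nat {θ g : S2} {k C T l p : ℕ} (hF : Fat θ k C) (hl : 2 * l ≤ k) (hpl : p ≤ l)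
    (hg : Lo g T) : ∃ H : ℕ → ℕ → Prop,
      (∀ b a b' a', H (2 ^ (2 * l) * b' + b) (2 ^ (2 * l) * a' + a) ↔ H b a) ∧
      (4 : ℝ) ^ k ≤ 4 ^ (p + 1) * (2 * l + 1) *
        ∑ b ∈ range (2 ^ k), ∑ a ∈ range (2 ^ k), ind (H b a) ∧
      l.choose p * ∑ b ∈ range (2 ^ k), ∑ a ∈ range (2 ^ k),
        ind (H b a ∧ ¬ Nz (g * θ ^ b) a k (T + C)) ≤ 4 ^ (p + 1) * (k + 1) * 4 ^ k := by
  choose r hr using hF g T hg
  let e : RR k × powersetCard p (range l) → RR k := fun ι =>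
    r ι.1.val + (1 - 8 * ι.1) * ((∑ i ∈ ι.2.1, 2 ^ i : ℕ) : RR k)
  let S : RR k × powersetCard p (range l) → RR k → Prop := fun ι b => ∀ b' : RR k,
    (2 : RR k) ^ l ∣ b' - b → ∃ n ≤ T + C, (n : RR k) = e ι + ι.1 * b' ∧
      coeff n (g * θ ^ b'.val) ≠ 0
  have hcard : Fintype.card (powersetCard p (range l)) = l.choose p := by
    rw [Fintype.card_coe, card_powersetCard, card_range]
  have hp : ∀ ι b z, S ι b → S ι (b + 2 ^ l * z) := fun ι b z h b' hb' => h b' <| by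
    have := dvd_add hb' (dvd_mul_right ((2 : RR k) ^ l) z)
    rwa [show b' - (b + 2 ^ l * z) + 2 ^ l * z = b' - b by ring] at this
  have hlt : ∀ o : powersetCard p (range l), ∀ i ∈ o.1, i < l := fun o i hi =>
    mem_range.1 ((mem_powersetCard.1 o.2).1 hi)
  refine (round e S (p := p) hl (hcard ▸ Nat.choose_pos hpl) (fun ι => ?_) hp
    fun c c' o o' o'' _ h1 h2 => ?_).elim fun τ ⟨h1, h2⟩ => ?_
  rotate_right
  · refine ⟨fun b a => τ ≤ mu e S (2 * l) b a, fun b a b' a' => ?_, ?_, ?_⟩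
    · refine iff_of_eq (congrArg _ (sum_congr rfl fun ι _ => ind_congr (and_congr ?_ ?_)))
      · push_cast
        refine ⟨fun h => ?_, fun h => ?_⟩
        · convert hp ι _ (-(2 ^ l * b')) h using 1
          ring
        · convert hp ι _ (2 ^ l * b') h using 1
          ring
      · push_cast
        rw [show e ι + ι.1 * (2 ^ (2 * l) * b' + b) - (2 ^ (2 * l) * a' + a) =
          e ι + ι.1 * b - a + 2 ^ (2 * l) * (ι.1 * b' - a') by ring,
          dvd_add_left (dvd_mul_right _ _)]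
    · rw [← sum_range_cast, sum_congr rfl fun b _ => (sum_range_cast _).symm] at h1
      exact h1
    · rw [hcard] at h2
      refine le_trans (mul_le_mul_of_nonneg_left ?_ (by positivity)) h2
      rw [← sum_range_cast]
      refine sum_le_sum fun b hb => ?_
      rw [← sum_range_cast]
      refine sum_le_sum fun a _ => ind_mono fun h => ⟨h.1, ?_⟩
      refine sum_eq_zero fun ι _ => ind_neg fun h3 => h.2 ?_
      obtain ⟨n, h4, h5, h6⟩ := h3.1 b (by simp)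
      have h7 := h3.2
      rw [two_pow_self, zero_dvd_iff, sub_eq_zero, ← h5, ZMod.natCast_eq_natCast_iff] at h7
      rw [ZMod.val_natCast_of_lt (mem_range.1 hb)] at h6
      exact ⟨n, h4, h7, h6⟩
  · have h1 : ∀ β : RR k, (1 : ℝ) ≤
        ∑ E ∈ ι.2.1.powerset, ind (S ι (β + ((∑ i ∈ E, 2 ^ i : ℕ) : RR k))) := fun β => by
      obtain ⟨E, hE, h1⟩ := hr ι.1.val l ι.2.1 β.val (by omega) (hlt ι.2)
      refine le_trans ?_ (single_le_sum (fun _ _ => ind_nonneg _) (mem_powerset.2 hE))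
      refine (ind_pos fun b' hb' => ?_).ge
      obtain ⟨n, h2, h3, h4⟩ := h1 b'.val (ZMod.val_lt _) (by
        refine (Nat.modEq_iff_dvd.2 ?_).symm
        have h2 := (dvd_cast_iff (k := k) (show l ≤ k by omega)
          ((b'.val : ℤ) - ((β.val + ∑ i ∈ E, 2 ^ i : ℕ) : ℤ))).1 (by
            rwa [Int.cast_sub, Int.cast_natCast, Int.cast_natCast, Nat.cast_add,
              ZMod.natCast_zmod_val, ZMod.natCast_zmod_val])
        exact_mod_cast h2)
      refine ⟨n, h2, ?_, h4⟩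
      have h5 := (ZMod.natCast_eq_natCast_iff _ _ _).2 h3
      simp only [Nat.cast_add, Nat.cast_mul, ZMod.natCast_zmod_val, Nat.cast_ofNat] at h5
      simp only [e]
      linear_combination h5
    have h2 := sum_le_sum fun β (_ : β ∈ univ) => h1 β
    have h3 : ∀ y : RR k, ∑ x, ind (S ι (x + y)) = ∑ b, ind (S ι b) := fun y =>
      Equiv.sum_comp (Equiv.addRight y) fun b => ind (S ι b)
    rw [sum_const, card_univ, ZMod.card, nsmul_eq_mul, mul_one, sum_comm] at h2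
    simp only [h3] at h2
    rw [sum_const, card_powerset, (mem_powersetCard.1 ι.2.2).2, nsmul_eq_mul] at h2
    exact_mod_cast h2
  · have h3 := dvd_sub h1 h2
    have h4 : IsUnit (1 - 8 * c') := IsNilpotent.isUnit_one_sub
      ⟨k, by rw [show 8 * c' = 2 * (4 * c') by ring, mul_pow, two_pow_self, zero_mul]⟩
    rw [show e (c, o) - e (c', o') - (e (c, o) - e (c', o'')) = (1 - 8 * c') *
      ((((∑ i ∈ o''.1, 2 ^ i : ℕ) : ℤ) - ((∑ i ∈ o'.1, 2 ^ i : ℕ) : ℤ) : ℤ) : RR k) by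
        simp only [e, Int.cast_sub, Int.cast_natCast]; ring,
      h4.dvd_mul_left, dvd_cast_iff (by omega)] at h3
    have h5 : (∑ i ∈ o'.1, 2 ^ i) ≡ ∑ i ∈ o''.1, 2 ^ i [MOD 2 ^ l] :=
      Nat.modEq_iff_dvd.2 (by exact_mod_cast h3)
    exact Subtype.ext (geomSum_injective le_rfl (h5.eq_of_lt_of_lt
      (Nat.geomSum_lt le_rfl (hlt o')) (Nat.geomSum_lt le_rfl (hlt o''))))

theorem Nz.down {g : S2} {j a a' s T : ℕ} (ha : a < 2 ^ j) (h : Nz g (2 ^ j * a' + a) (j + s) T) :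
    Nz (sec (2 ^ j) a g) a' s (T / 2 ^ j) := by
  obtain ⟨n, h1, h2, h3⟩ := h
  have h4 : n % 2 ^ j = a := by
    have h4 : n % 2 ^ j = _ := h2.of_dvd (pow_dvd_pow 2 (Nat.le_add_right j s))
    rwa [Nat.mul_add_mod, Nat.mod_eq_of_lt ha] at h4
  have h5 := Nat.div_add_mod n (2 ^ j)
  rw [h4] at h5
  refine ⟨n / 2 ^ j, Nat.div_le_div_right h1, ?_, by rwa [sec, coeff_mk, h5]⟩
  rw [← h5, pow_add] at h2
  exact Nat.ModEq.mul_left_cancel' (by positivity) (Nat.ModEq.add_right_cancel' _ h2)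

theorem Nz.up {g : S2} {j a a' s T C C' : ℕ} (ha : a < 2 ^ j) (hC : 2 ^ j * (C + 1) ≤ C')
    (h : Nz (sec (2 ^ j) a g) a' s (T / 2 ^ j + C)) : Nz g (2 ^ j * a' + a) (j + s) (T + C') := by
  obtain ⟨n, h1, h2, h3⟩ := h
  rw [sec, coeff_mk] at h3
  refine ⟨2 ^ j * n + a, ?_, ?_, h3⟩
  · have h4 := Nat.mul_le_mul_left (2 ^ j) h1
    have h5 := Nat.mul_div_le T (2 ^ j)
    rw [mul_add] at h4 hC
    omega
  · rw [pow_add]
    exact (h2.mul_left' _).add_right _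

theorem sum_sq_mul (f : ℕ → ℕ → ℝ) (m n : ℕ) :
    ∑ b ∈ range (n * m), ∑ a ∈ range (n * m), f b a = ∑ b ∈ range n, ∑ a ∈ range n,
      ∑ b' ∈ range m, ∑ a' ∈ range m, f (n * b' + b) (n * a' + a) := by
  rw [sum_range_mul, sum_comm]
  refine sum_congr rfl fun b _ => ?_
  rw [sum_congr rfl fun b' _ => (sum_range_mul _ m n).trans sum_comm, sum_comm]

theorem Lam.split {θ : S2} {s k K C C' j : ℕ} {ε : ℝ} (h : Lam θ s k K C ε)
    (hC : 2 ^ j * (C + 1) ≤ C') (W : ℕ → ℕ → Prop)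
    (hW : ∀ b a b' a', W (2 ^ j * b' + b) (2 ^ j * a' + a) ↔ W b a) (g : S2) (T : ℕ) :
    ∑ b ∈ range (2 ^ (j + K)), ∑ a ∈ range (2 ^ (j + K)), ind (W b a) *
      ind (Nz (g * θ ^ b) a (j + s) T ∧ ¬ Nz (g * θ ^ b) a (j + k) (T + C')) ≤
      ε * ∑ b ∈ range (2 ^ (j + K)), ∑ a ∈ range (2 ^ (j + K)), ind (W b a) := by
  rw [pow_add, sum_sq_mul, sum_sq_mul, mul_sum]
  refine sum_le_sum fun b _ => ?_
  rw [mul_sum]
  refine sum_le_sum fun a ha => ?_
  simp only [hW, ← mul_sum, sum_const, card_range, nsmul_eq_mul]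
  have h1 : ∀ b', sec (2 ^ j) a (g * θ ^ (2 ^ j * b' + b)) = sec (2 ^ j) a (g * θ ^ b) * θ ^ b' :=
    fun b' => by
      rw [← sec_mul (by positivity) (mem_range.1 ha), ← pow_two_pow]
      congr 1
      ring
  refine le_trans (mul_le_mul_of_nonneg_left (le_trans (sum_le_sum fun b' _ => sum_le_sum
    fun a' _ => ind_mono fun h2 => ?_) (h (sec (2 ^ j) a (g * θ ^ b)) (T / 2 ^ j)))
    (ind_nonneg _)) (le_of_eq ?_)
  · rw [← h1]
    exact ⟨h2.1.down (mem_range.1 ha), fun h3 => h2.2 (h3.up (mem_range.1 ha) hC)⟩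
  · rw [show (4 : ℝ) = 2 * 2 by norm_num, mul_pow]
    push_cast
    ring

theorem sum_one (K : ℕ) : ∑ _b ∈ range (2 ^ K), ∑ _a ∈ range (2 ^ K), (1 : ℝ) = 4 ^ K := by
  simp only [sum_const, card_range, nsmul_eq_mul]
  rw [show (4 : ℝ) = 2 * 2 by norm_num, mul_pow]
  push_cast
  ring

theorem Lam.one (θ : S2) (s k K C : ℕ) : Lam θ s k K C 1 := fun _ _ => by
  rw [one_mul, ← sum_one]
  exact sum_le_sum fun _ _ => sum_le_sum fun _ _ => ind_le_one _

theorem Lam.mono {θ : S2} {s k K C : ℕ} {ε ε' : ℝ} (h : Lam θ s k K C ε) (hε : ε ≤ ε') :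
    Lam θ s k K C ε' := fun g T => (h g T).trans (by gcongr)

theorem Lam.desc {θ : S2} {s k K C C' j : ℕ} {ε : ℝ} (h : Lam θ s k K C ε)
    (hC : 2 ^ j * (C + 1) ≤ C') : Lam θ (j + s) (j + k) (j + K) C' ε := fun g T => by
  have h1 := h.split hC (fun _ _ => True) (fun _ _ _ _ => Iff.rfl) g T
  simpa only [ind_pos trivial, one_mul, sum_one] using h1

theorem Lam.ext {θ : S2} {s k C : ℕ} {ε : ℝ} (h : Lam θ s k k C ε) (hs : s ≤ k) (u : ℕ) :
    Lam θ s k (k + u) C ε := fun g T => by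
  have h1 : ∀ (f : S2) (a a' i Z : ℕ), i ≤ k → (Nz f (2 ^ k * a' + a) i Z ↔ Nz f a i Z) := by
    intro f a a' i Z hi
    have h2 : 2 ^ k * a' + a ≡ a [MOD 2 ^ i] := by
      simpa using (Nat.modEq_zero_iff_dvd.2 ((pow_dvd_pow 2 hi).mul_right a')).add_right a
    exact exists_congr fun n => and_congr_right fun _ => and_congr_left fun _ =>
      ⟨fun h => h.trans h2, fun h => h.trans h2.symm⟩
  rw [pow_add, sum_sq_mul, sum_congr rfl fun b _ => sum_comm, sum_comm]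
  refine (sum_le_card_nsmul _ _ (2 ^ u * (ε * 4 ^ k)) fun b' _ => ?_).trans (le_of_eq ?_)
  · simp only [h1 _ _ _ _ _ hs, h1 _ _ _ _ _ le_rfl, sum_const, card_range, nsmul_eq_mul,
      ← mul_sum, pow_add, ← mul_assoc]
    rw [mul_assoc]
    push_cast
    exact mul_le_mul_of_nonneg_left (h _ T) (by positivity)
  · rw [card_range, nsmul_eq_mul, pow_add, show (4 : ℝ) ^ u = 2 ^ u * 2 ^ u by
      rw [← mul_pow]; norm_num]
    push_cast
    ring

theorem Lam.step {θ : S2} {s k C C' l p : ℕ} {ε η h : ℝ} (hL : Lam θ s k k C ε) (hε : 0 ≤ ε)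
    (hF : Fat θ (2 * l + k) C') (hC : 2 ^ (2 * l) * (C + 1) ≤ C') (hpl : p ≤ l)
    (hη : 4 ^ (p + 1) * ((2 * l + k : ℕ) + 1) ≤ l.choose p * η)
    (hh : h * (4 ^ (p + 1) * (2 * l + 1)) = 1) (hh1 : h ≤ 1) :
    Lam θ (2 * l + s) (2 * l + k) (2 * l + k) C' (η + (1 - h) * ε) := fun g T => by
  have h0 : (0 : ℝ) < l.choose p := by exact_mod_cast Nat.choose_pos hpl
  have hη0 : 0 ≤ η := nonneg_of_mul_nonneg_right (le_trans (by positivity) hη) h0
  by_cases hg : Lo g T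
  · obtain ⟨H, h1, h2, h3⟩ := round_nat hF (Nat.le_add_right _ _) hpl hg
    have h4 := hL.split hC (fun b a => ¬ H b a) (fun b a b' a' => not_congr (h1 b a b' a')) g T
    have h5 : ∑ b ∈ range (2 ^ (2 * l + k)), ∑ a ∈ range (2 ^ (2 * l + k)), ind (¬ H b a) +
        ∑ b ∈ range (2 ^ (2 * l + k)), ∑ a ∈ range (2 ^ (2 * l + k)), ind (H b a) =
        4 ^ (2 * l + k) := by
      simp only [← sum_one, ← sum_add_distrib]
      refine sum_congr rfl fun b _ => sum_congr rfl fun a _ => ?_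
      by_cases h5 : H b a
      · rw [ind_pos h5, ind_neg (not_not.2 h5), zero_add]
      · rw [ind_pos h5, ind_neg h5, add_zero]
    have hh0 : 0 < h := (mul_pos_iff_of_pos_right (by positivity)).1 (hh ▸ one_pos)
    have h6 := mul_le_mul_of_nonneg_left h2 hh0.le
    rw [← mul_assoc, hh, one_mul] at h6
    have h7 := le_of_mul_le_mul_left (h3.trans ((mul_le_mul_of_nonneg_right hη
      (by positivity)).trans (mul_assoc _ _ _).le)) h0
    refine le_trans ?_ ((add_le_add h7 h4).trans ?_)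
    · simp only [← sum_add_distrib]
      refine sum_le_sum fun b _ => sum_le_sum fun a _ => ?_
      by_cases h8 : H b a
      · exact (ind_mono fun h9 => ⟨h8, h9.2⟩).trans
          (le_add_of_nonneg_right (mul_nonneg (ind_nonneg _) (ind_nonneg _)))
      · rw [ind_pos h8, one_mul]
        exact le_add_of_nonneg_left (ind_nonneg _)
    · nlinarith [mul_le_mul_of_nonneg_left h6 hε]
  · rw [sum_eq_zero fun b _ => sum_eq_zero fun a _ => ind_neg fun h1 => hg ?_]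
    · have : 0 ≤ (1 - h) * ε := mul_nonneg (sub_nonneg.2 hh1) hε
      positivity
    · obtain ⟨n, h2, -, h3⟩ := h1.1
      exact Lo.of_mul ⟨n, h2, h3⟩

end Pool.Agent.Lib.MP_a3366f_nt.Av
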