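import Mathlib
import Pool.Agent.Lib.MP_a3366f_nt.Av.Lam

/-!
Summing the losses over all levels: most rows keep a positive share of their sections.
-/

open Finset PowerSeries

namespace Pool.Agent.Lib.MP_a3366f_nt.Av

variable {θ : S2} {κ m : ℕ}

theorem cost_le (hκ : 0 < κ) (hm : 2 ≤ m) {j : ℕ} (hj : 1 ≤ j) (k : ℕ) :
    2 ^ j * (κ * 2 ^ (m * k) + 1) ≤ κ * 2 ^ (m * (j + k)) := by
  have h1 : 1 ≤ κ * 2 ^ (m * k) := Nat.succ_le_of_lt (by positivity)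
  have h2 : 2 ^ (j + 1) ≤ 2 ^ (m * j) := Nat.pow_le_pow_right two_pos (by nlinarith)
  calc 2 ^ j * (κ * 2 ^ (m * k) + 1) ≤ 2 ^ j * (κ * 2 ^ (m * k) + κ * 2 ^ (m * k)) := by gcongr
    _ = 2 ^ (j + 1) * (κ * 2 ^ (m * k)) := by ring
    _ ≤ 2 ^ (m * j) * (κ * 2 ^ (m * k)) := by gcongr
    _ = _ := by ring

theorem lam_iter (hκ : 0 < κ) (hm : 2 ≤ m) (hF : ∀ k, 1 ≤ k → Fat θ k (κ * 2 ^ (m * k)))
    {l p D : ℕ} {η h : ℝ} (hl : 1 ≤ l) (hpl : p ≤ l)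
    (hη : 4 ^ (p + 1) * ((D : ℝ) + 1) ≤ l.choose p * η)
    (hh : h * (4 ^ (p + 1) * (2 * l + 1)) = 1) (hh0 : 0 < h) (hh1 : h ≤ 1) (hη0 : 0 ≤ η) (s n : ℕ) :
    2 * l * n + s + 1 ≤ D → Lam θ (2 * l * n + s) (2 * l * n + s + 1) (2 * l * n + s + 1)
      (κ * 2 ^ (m * (2 * l * n + s + 1))) (η / h + (1 - h) ^ n) := by
  induction n with
  | zero =>
    intro _
    refine (Lam.one _ _ _ _ _).mono ?_
    rw [pow_zero]
    exact le_add_of_nonneg_left (by positivity)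
  | succ n ih =>
    intro hD
    have h1 : 2 * l * (n + 1) + s = 2 * l + (2 * l * n + s) := by ring
    rw [h1] at hD ⊢
    rw [add_assoc] at hD ⊢
    have h2 : 0 ≤ (1 - h) ^ n := pow_nonneg (sub_nonneg.2 hh1) n
    refine ((ih (by omega)).step (by positivity) (hF _ (by omega)) (cost_le hκ hm (by omega) _) hpl
      (le_trans ?_ hη) hh hh1).mono (le_of_eq ?_)
    · gcongr
    · field_simp
      ring

theorem pow_one_sub_le {h : ℝ} (h0 : 0 < h) (h1 : h ≤ 1) {q : ℕ} (hq : 0 < q) :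
    (1 - h) ^ q ≤ 1 / (q * h) := by
  have h2 := one_add_mul_le_pow (show (-2 : ℝ) ≤ h by linarith) q
  have h3 : (1 - h) ^ q * (1 + h) ^ q ≤ 1 := by
    rw [← mul_pow]
    exact pow_le_one₀ (by nlinarith) (by nlinarith)
  have h4 : 0 ≤ (1 - h) ^ q := pow_nonneg (sub_nonneg.2 h1) q
  rw [le_div_iff₀ (by positivity)]
  nlinarith

theorem lam_cube (hκ : 0 < κ) (hm : 2 ≤ m) (hF : ∀ k, 1 ≤ k → Fat θ k (κ * 2 ^ (m * k))) :
    ∃ A : ℝ, 0 < A ∧ ∀ d : ℕ, 1 ≤ d →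
      Lam θ d (d + 1) (d + 1) (κ * 2 ^ (m * (d + 1))) (A / d ^ 3) := by
  obtain ⟨B, hB⟩ : ∃ B : ℝ, B = 4 ^ (13 + 1) := ⟨_, rfl⟩
  obtain ⟨F, hFd⟩ : ∃ F : ℝ, F = (Nat.factorial 13 : ℕ) := ⟨_, rfl⟩
  have hB1 : 1 ≤ B := hB ▸ one_le_pow₀ (by norm_num)
  have hF1 : 1 ≤ F := hFd ▸ Nat.one_le_cast.2 (Nat.factorial_pos 13)
  refine ⟨(B * 1874 * F * (27 * B) + (27 * B) ^ 9) * 1872 ^ 3, by positivity, fun d hd => ?_⟩
  have hd0 : (0 : ℝ) < d := by exact_mod_cast hd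
  have h9 : 1 ≤ (27 * B) ^ 9 := one_le_pow₀ (by linarith)
  obtain ⟨g, hg1, hg2⟩ : ∃ g, 234 * g ^ 3 ≤ d ∧ d < 234 * (g + 1) ^ 3 := by
    classical
    have h1 : ∃ g, d < 234 * (g + 1) ^ 3 := ⟨d, by nlinarith [Nat.le_self_pow three_ne_zero (d + 1)]⟩
    refine ⟨Nat.find h1, ?_, Nat.find_spec h1⟩
    rcases h2 : Nat.find h1 with _ | g
    · simp
    · exact not_lt.1 (Nat.find_min h1 (by omega))
  rcases Nat.eq_zero_or_pos g with rfl | hg0
  · refine (Lam.one _ _ _ _ _).mono ?_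
    have h1 : (d : ℝ) ≤ 1872 := by exact_mod_cast (show d ≤ 1872 by omega)
    rw [le_div_iff₀ (by positivity), one_mul]
    calc (d : ℝ) ^ 3 ≤ 1 * 1872 ^ 3 := by rw [one_mul]; gcongr
      _ ≤ _ := by gcongr; exact le_add_of_nonneg_of_le (by positivity) h9
  have hg : (1 : ℝ) ≤ g := by exact_mod_cast hg0
  have h1 : d ≤ 1872 * g ^ 3 := by
    have := Nat.pow_le_pow_left (show g + 1 ≤ 2 * g by omega) 3
    rw [mul_pow] at this
    omega
  have h1' : (d : ℝ) ≤ 1872 * g ^ 3 := by exact_mod_cast h1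
  have hg3 : (1 : ℝ) ≤ g ^ 3 := one_le_pow₀ hg
  obtain ⟨s, hs⟩ := Nat.exists_eq_add_of_le (show 2 * (g + 12) * (g ^ 2 * 9) ≤ d by
    refine le_trans ?_ hg1
    calc 2 * (g + 12) * (g ^ 2 * 9) ≤ 26 * g * (g ^ 2 * 9) := Nat.mul_le_mul_right _ (by omega)
      _ = _ := by ring)
  have h2 : (g : ℝ) ^ 13 / F ≤ (g + 12).choose 13 := by
    simpa only [hFd, show g + 12 + 1 - 13 = g by omega] using Nat.pow_le_choose (α := ℝ) 13 (g + 12)
  obtain ⟨h, hh⟩ : ∃ h : ℝ, h = 1 / (B * (2 * (g + 12 : ℕ) + 1)) := ⟨_, rfl⟩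
  have h3 : 1 / (27 * B * g) ≤ h := by
    rw [hh]
    refine one_div_le_one_div_of_le (by positivity) ?_
    push_cast
    nlinarith
  have hh0 : 0 < h := lt_of_lt_of_le (by positivity) h3
  have hh1 : h ≤ 1 := by
    rw [hh, div_le_one (by positivity)]
    push_cast
    nlinarith
  have h4 := lam_iter hκ hm hF (l := g + 12) (p := 13) (D := d + 1) (η := B * 1874 * F / g ^ 10)
    (h := h) (by omega) (by omega) (by
      rw [← hB]
      refine le_trans ?_ (mul_le_mul_of_nonneg_right h2 (by positivity))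
      rw [show (g : ℝ) ^ 13 / F * (B * 1874 * F / g ^ 10) = B * (1874 * g ^ 3) by field_simp]
      push_cast
      gcongr
      linarith) (by rw [← hB, hh]; field_simp) hh0 hh1 (by positivity) s (g ^ 2 * 9) (by omega)
  rw [← hs] at h4
  refine h4.mono ?_
  have h5 : B * 1874 * F / g ^ 10 / h ≤ B * 1874 * F * (27 * B) / g ^ 9 := by
    refine (div_le_div_of_nonneg_left (by positivity) (by positivity) h3).trans (le_of_eq ?_)
    field_simp
  have h6 : (1 - h) ^ (g ^ 2 * 9) ≤ (27 * B) ^ 9 / g ^ 9 := by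
    rw [pow_mul, ← div_pow]
    refine pow_le_pow_left₀ (pow_nonneg (sub_nonneg.2 hh1) _)
      ((pow_one_sub_le hh0 hh1 (by positivity)).trans ?_) 9
    refine (one_div_le_one_div_of_le (by positivity)
      (mul_le_mul_of_nonneg_left h3 (by positivity))).trans (le_of_eq ?_)
    push_cast
    field_simp
  refine (add_le_add h5 h6).trans ?_
  rw [← add_div, div_le_div_iff₀ (by positivity) (by positivity)]
  refine (mul_le_mul_of_nonneg_left (pow_le_pow_left₀ hd0.le h1' 3) (by positivity)).trans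
    (le_of_eq ?_)
  ring

theorem sum_cube {i : ℕ} (hi : 1 ≤ i) (n : ℕ) :
    ∑ s ∈ Ico i n, 1 / (s : ℝ) ^ 3 ≤ 2 / (i : ℝ) ^ 2 := by
  obtain ⟨i, rfl⟩ := Nat.exists_eq_add_of_le' hi
  have h1 := sum_Ioo_inv_sq_le (α := ℝ) i n
  have h0 : (0 : ℝ) < (i + 1 : ℕ) := by positivity
  calc ∑ s ∈ Ico (i + 1) n, 1 / (s : ℝ) ^ 3
      ≤ ∑ s ∈ Ioo i n, ((s : ℝ) ^ 2)⁻¹ / (i + 1 : ℕ) := by
        refine sum_le_sum fun s hs => ?_
        have h2 : ((i + 1 : ℕ) : ℝ) ≤ s := by exact_mod_cast (mem_Ico.1 hs).1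
        have h3 : (0 : ℝ) < s := h0.trans_le h2
        rw [inv_eq_one_div, div_div, pow_succ]
        gcongr
    _ ≤ 2 / (i + 1) / (i + 1 : ℕ) := by rw [← sum_div]; gcongr
    _ = _ := by rw [div_div, sq]; push_cast; rfl

theorem chain (hκ : 0 < κ) (hm : 2 ≤ m) {A : ℝ} (hA : 0 < A)
    (hL : ∀ d : ℕ, 1 ≤ d → Lam θ d (d + 1) (d + 1) (κ * 2 ^ (m * (d + 1))) (A / d ^ 3))
    {i k K : ℕ} (hi : 1 ≤ i) (hk : 2 * m ≤ k) (hK : i ≤ K) (g : S2) (T : ℕ) :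
    ∑ b ∈ range (2 ^ K), ∑ a ∈ range (2 ^ K), ind (Nz (g * θ ^ b) a i T ∧
      ¬ Nz (g * θ ^ b) a K (T + 4 * κ * 2 ^ m * 2 ^ (K + k))) ≤
      (A * (2 / i ^ 2) + A * (4 * m) ^ 3 * (2 / (k + 1 : ℕ) ^ 2)) * 4 ^ K := by
  set U : ℕ → ℕ := fun s =>
    T + 2 * κ * 2 ^ m * (2 ^ ((K + k + s) / 2) + 2 ^ ((K + k + (s + 1)) / 2)) with hU
  have h1 : ∀ s, U (s + 1) = U s + 2 * κ * 2 ^ m * 2 ^ ((K + k + s) / 2) := fun s => by
    simp only [hU]
    rw [show (K + k + (s + 1 + 1)) / 2 = (K + k + s) / 2 + 1 by omega]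
    ring
  have h2 : ∀ (f : S2) (a n : ℕ), i ≤ n → ind (Nz f a i (U i) ∧ ¬ Nz f a n (U n)) ≤
      ∑ s ∈ Ico i n, ind (Nz f a s (U s) ∧ ¬ Nz f a (s + 1) (U (s + 1))) := by
    intro f a n hn
    induction n, hn using Nat.le_induction with
    | base => rw [ind_neg fun h => h.2 h.1, Ico_self, sum_empty]
    | succ n hn ih =>
      rw [sum_Ico_succ_top hn]
      by_cases h : Nz f a n (U n)
      · exact (ind_mono fun h3 => ⟨h, h3.2⟩).trans
          (le_add_of_nonneg_left (sum_nonneg fun _ _ => ind_nonneg _))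
      · exact ((ind_mono fun h3 => ⟨h3.1, h⟩).trans ih).trans
          (le_add_of_nonneg_right (ind_nonneg _))
  have h3 : ∀ s ∈ Ico i K, ∑ b ∈ range (2 ^ K), ∑ a ∈ range (2 ^ K),
      ind (Nz (g * θ ^ b) a s (U s) ∧ ¬ Nz (g * θ ^ b) a (s + 1) (U (s + 1))) ≤
      (A * (1 / s ^ 3) + A * (4 * m) ^ 3 * (1 / (K + k - s : ℕ) ^ 3)) * 4 ^ K := by
    intro s hs
    rw [mem_Ico] at hs
    obtain ⟨d, hd⟩ : ∃ d, d = min s ((K + k - s) / (2 * m)) := ⟨_, rfl⟩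
    have h4 : 1 ≤ (K + k - s) / (2 * m) := Nat.div_pos (by omega) (by omega)
    have h5 : 1 ≤ d := hd ▸ le_min (by omega) h4
    have h6 : 2 * m * d ≤ K + k - s :=
      (Nat.mul_le_mul_left _ (hd ▸ min_le_right _ _)).trans (Nat.mul_div_le _ _)
    obtain ⟨j, hj⟩ := Nat.exists_eq_add_of_le' (show d ≤ s from hd ▸ min_le_left _ _)
    obtain ⟨u, hu⟩ := Nat.exists_eq_add_of_le (show s + 1 ≤ K from hs.2)
    have h7 := ((hL d h5).ext (Nat.le_succ d) u).desc (j := j)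
      (C' := 2 * κ * 2 ^ m * 2 ^ ((K + k + s) / 2)) (by
        have h7 : 1 ≤ κ * 2 ^ (m * (d + 1)) := Nat.succ_le_of_lt (by positivity)
        have h8 : 2 ^ (j + m * d) ≤ 2 ^ ((K + k + s) / 2) := by
          refine Nat.pow_le_pow_right two_pos ?_
          rw [mul_assoc] at h6
          omega
        calc 2 ^ j * (κ * 2 ^ (m * (d + 1)) + 1)
            ≤ 2 ^ j * (κ * 2 ^ (m * (d + 1)) + κ * 2 ^ (m * (d + 1))) := by gcongr
          _ = 2 * κ * 2 ^ m * 2 ^ (j + m * d) := by ring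
          _ ≤ _ := by gcongr) g (U s)
    rw [← h1, show j + (d + 1 + u) = K by omega, ← add_assoc, ← hj] at h7
    refine h7.trans (mul_le_mul_of_nonneg_right ?_ (by positivity))
    rcases min_choice s ((K + k - s) / (2 * m)) with h | h
    · rw [hd, h, div_eq_mul_one_div]
      exact le_add_of_nonneg_right (by positivity)
    · refine le_add_of_nonneg_of_le (by positivity) ?_
      have h8 : K + k - s ≤ 4 * m * d := by
        have := Nat.lt_mul_div_succ (K + k - s) (show 0 < 2 * m by omega)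
        rw [← h, ← hd] at this
        nlinarith
      have h9 : ((K + k - s : ℕ) : ℝ) ≤ 4 * m * d := by exact_mod_cast h8
      have h10 : (0 : ℝ) < (K + k - s : ℕ) := by exact_mod_cast (show 0 < K + k - s by omega)
      have h11 : (0 : ℝ) < d := by exact_mod_cast h5
      rw [mul_one_div, div_le_div_iff₀ (by positivity) (by positivity), mul_assoc, ← mul_pow]
      gcongr
  have h4 : ∀ (f : S2) (a s Y Z : ℕ), Y ≤ Z → Nz f a s Y → Nz f a s Z :=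
    fun f a s Y Z h h' => h'.imp fun n h5 => ⟨h5.1.trans h, h5.2⟩
  have h5 : U K ≤ T + 4 * κ * 2 ^ m * 2 ^ (K + k) := by
    have h5 : 2 ^ ((K + k + K) / 2) ≤ 2 ^ (K + k) := Nat.pow_le_pow_right two_pos (by omega)
    have h6 : 2 ^ ((K + k + (K + 1)) / 2) ≤ 2 ^ (K + k) := Nat.pow_le_pow_right two_pos (by omega)
    calc U K ≤ T + 2 * κ * 2 ^ m * (2 ^ (K + k) + 2 ^ (K + k)) := by simp only [hU]; gcongr
      _ = _ := by ring
  refine (sum_le_sum fun b _ => sum_le_sum fun a _ => (ind_mono fun h => ⟨h4 _ _ _ _ _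
    (Nat.le_add_right _ _) h.1, fun h6 => h.2 (h4 _ _ _ _ _ h5 h6)⟩).trans (h2 _ a K hK)).trans ?_
  rw [sum_congr rfl fun b _ => sum_comm, sum_comm]
  refine (sum_le_sum h3).trans ?_
  rw [← sum_mul, sum_add_distrib, ← mul_sum, ← mul_sum,
    sum_Ico_reflect (fun u : ℕ => 1 / (u : ℝ) ^ 3) i (show K ≤ K + k + 1 by omega),
    show K + k + 1 - K = k + 1 by omega]
  gcongr
  · exact sum_cube hi _
  · exact sum_cube (by omega) _

theorem sum_Nz_le (f : S2) (K Z : ℕ) : ∑ a ∈ range (2 ^ K), ind (Nz f a K Z) ≤ NN f (Z + 1) := by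
  classical
  rw [sum_ind, NN]
  refine Nat.cast_le.2 ((card_le_card fun a ha => ?_).trans (card_image_le (f := (· % 2 ^ K))))
  obtain ⟨h1, n, h2, h3, h4⟩ := mem_filter.1 ha
  exact mem_image.2 ⟨n, mem_filter.2 ⟨mem_range.2 (by omega), h4⟩,
    Eq.trans h3 (Nat.mod_eq_of_lt (mem_range.1 h1))⟩

theorem rows (hκ : 0 < κ) (hm : 2 ≤ m) (hθ : constantCoeff θ = 1)
    (hF : ∀ k, 1 ≤ k → Fat θ k (κ * 2 ^ (m * k))) {ε : ℝ} (hε : 0 < ε) :
    ∃ c : ℝ, 0 < c ∧ ∃ Γ K₀ : ℕ, 0 < Γ ∧ ∀ K, K₀ ≤ K → ∀ g, Lo g 0 →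
      ∑ b ∈ range (2 ^ K), ind ((NN (g * θ ^ b) (Γ * 2 ^ K) : ℝ) < c * 2 ^ K) ≤ 3 * ε * 2 ^ K := by
  classical
  obtain ⟨A, hA, hL⟩ := lam_cube hκ hm hF
  obtain ⟨i, hi⟩ := exists_nat_ge (max 1 (8 * A / ε ^ 2))
  have hi1 : (1 : ℝ) ≤ i := le_of_max_le_left hi
  have hi2 := (div_le_iff₀ (by positivity)).1 (le_of_max_le_right hi)
  obtain ⟨c, hc⟩ : ∃ c : ℝ, c = ε / (2 * (i + 1)) := ⟨_, rfl⟩
  have hc0 : 0 < c := by rw [hc]; positivity
  obtain ⟨k, hk⟩ := exists_nat_ge (max (2 * m : ℝ) (A * (4 * m) ^ 3 * 2 / (ε * c)))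
  have hk1 : 2 * m ≤ k := by exact_mod_cast le_of_max_le_left hk
  have hk2 := (div_le_iff₀ (by positivity)).1 (le_of_max_le_right hk)
  refine ⟨c, hc0, κ * 2 ^ (m * i) + 4 * κ * 2 ^ m * 2 ^ k + 1, i, by omega, fun K hK g hg => ?_⟩
  have h1 := chain hκ hm hA hL (by exact_mod_cast hi1) hk1 hK g (0 + κ * 2 ^ (m * i))
  have h2 : A * (2 / i ^ 2) ≤ ε * c := by
    rw [hc, ← mul_div_assoc, ← mul_div_assoc, div_le_div_iff₀ (by positivity) (by positivity)]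
    nlinarith [mul_le_mul_of_nonneg_right hi2 (show (0 : ℝ) ≤ i by positivity),
      mul_le_mul_of_nonneg_left hi1 hA.le]
  have h3 : A * (4 * m) ^ 3 * (2 / (k + 1 : ℕ) ^ 2) ≤ ε * c := by
    rw [← mul_div_assoc, div_le_iff₀ (by positivity)]
    refine hk2.trans ?_
    rw [mul_comm]
    gcongr
    push_cast
    nlinarith [Nat.cast_nonneg (α := ℝ) k]
  obtain ⟨u, rfl⟩ := Nat.exists_eq_add_of_le hK
  set Y : ℕ → Finset ℕ := fun b => (range (2 ^ i)).filter fun a =>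
    Nz (g * θ ^ b) a i (0 + κ * 2 ^ (m * i)) with hY
  have hline : ∀ j c : ℕ, ∃ a : ℕ, ∀ b < 2 ^ i, ∃ y ∈ Y (2 ^ i * j + b),
      y ≡ a + c * b [MOD 2 ^ i] := fun j c => by
    obtain ⟨a, ha⟩ := hF i (by exact_mod_cast hi1) (g * θ ^ (2 ^ i * j)) 0
      (hg.mul (by rw [map_pow, hθ, one_pow])) c
    obtain ⟨E, -, hE⟩ := ha 0 ∅ 0 (Nat.zero_le _) (by simp)
    refine ⟨a, fun b hb => ?_⟩
    obtain ⟨n, h4, h5, h6⟩ := hE b hb (by simpa using Nat.modEq_one)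
    simp only [sum_empty, mul_zero, add_zero] at h5
    refine ⟨n % 2 ^ i, mem_filter.2 ⟨mem_range.2 (Nat.mod_lt _ (by positivity)), n, h4,
      (Nat.mod_modEq _ _).symm, ?_⟩, (Nat.mod_modEq _ _).trans h5⟩
    rwa [pow_add, ← mul_assoc]
  have h4 : ∑ b ∈ range (2 ^ (i + u)), (1 : ℝ) / (Y b).card ≤ 2 ^ u * (i + 1) := by
    rw [pow_add, sum_range_mul]
    refine (sum_le_card_nsmul _ _ _ fun j _ => kak i _ (hline j)).trans
      (by simp [mul_add])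
  have h5 : ∀ b, (0 : ℝ) < (Y b).card := fun b => by
    obtain ⟨n, h5, h6⟩ := hg.mul (u := θ ^ b) (by rw [map_pow, hθ, one_pow])
    exact Nat.cast_pos.2 (card_pos.2 ⟨n % 2 ^ i, mem_filter.2 ⟨mem_range.2 (Nat.mod_lt _
      (by positivity)), n, h5.trans (Nat.le_add_right _ _), (Nat.mod_modEq _ _).symm, h6⟩⟩)
  set lost : ℕ → ℝ := fun b => ∑ a ∈ range (2 ^ (i + u)),
    ind (Nz (g * θ ^ b) a i (0 + κ * 2 ^ (m * i)) ∧ ¬ Nz (g * θ ^ b) a (i + u)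
      (0 + κ * 2 ^ (m * i) + 4 * κ * 2 ^ m * 2 ^ (i + u + k))) with hlost
  have h6 : ∀ b, 2 ^ u * ((Y b).card : ℝ) ≤ lost b +
      NN (g * θ ^ b) ((κ * 2 ^ (m * i) + 4 * κ * 2 ^ m * 2 ^ k + 1) * 2 ^ (i + u)) := fun b => by
    have h6 : 2 ^ u * ((Y b).card : ℝ) ≤
        ∑ a ∈ range (2 ^ (i + u)), ind (Nz (g * θ ^ b) a i (0 + κ * 2 ^ (m * i))) := by
      rw [pow_add, sum_range_mul]
      refine le_trans (by simp) (card_nsmul_le_sum _ _ ((Y b).card : ℝ) fun j _ => ?_)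
      rw [← sum_ind]
      refine sum_le_sum fun a _ => ind_mono fun h => h.imp fun n h7 => ⟨h7.1, h7.2.1.trans ?_, h7.2.2⟩
      simp [Nat.ModEq]
    have h7 := sum_Nz_le (g * θ ^ b) (i + u)
      (0 + κ * 2 ^ (m * i) + 4 * κ * 2 ^ m * 2 ^ (i + u + k))
    have h8 : 0 + κ * 2 ^ (m * i) + 4 * κ * 2 ^ m * 2 ^ (i + u + k) + 1 ≤
        (κ * 2 ^ (m * i) + 4 * κ * 2 ^ m * 2 ^ k + 1) * 2 ^ (i + u) := by
      have h8 : 1 ≤ 2 ^ (i + u) := Nat.one_le_two_pow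
      calc _ = κ * 2 ^ (m * i) * 1 + 4 * κ * 2 ^ m * 2 ^ (i + u + k) + 1 := by ring
        _ ≤ κ * 2 ^ (m * i) * 2 ^ (i + u) + 4 * κ * 2 ^ m * 2 ^ (i + u + k) + 2 ^ (i + u) := by
          gcongr
        _ = _ := by ring
    refine h6.trans (le_trans ?_ (add_le_add le_rfl (h7.trans (Nat.cast_le.2 (NN_mono _ h8)))))
    rw [← sum_add_distrib]
    refine sum_le_sum fun a _ => ?_
    by_cases h : Nz (g * θ ^ b) a (i + u) (0 + κ * 2 ^ (m * i) + 4 * κ * 2 ^ m * 2 ^ (i + u + k))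
    · rw [ind_pos h]
      exact (ind_le_one _).trans (le_add_of_nonneg_left (ind_nonneg _))
    · exact (ind_mono fun h9 => ⟨h9, h⟩).trans (le_add_of_nonneg_right (ind_nonneg _))
  have h7 : ∀ b, ind ((NN (g * θ ^ b) ((κ * 2 ^ (m * i) + 4 * κ * 2 ^ m * 2 ^ k + 1) *
      2 ^ (i + u)) : ℝ) < c * 2 ^ (i + u)) ≤
      2 * c * 2 ^ i * (1 / (Y b).card) + 1 / (c * 2 ^ (i + u)) * lost b := fun b => by
    have h7 : 0 ≤ lost b := sum_nonneg fun _ _ => ind_nonneg _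
    have h8 := h5 b
    by_cases h : c * 2 ^ (i + u) ≤ lost b
    · refine (ind_le_one _).trans (le_add_of_nonneg_of_le (by positivity) ?_)
      rwa [one_div, inv_mul_eq_div, le_div_iff₀ (by positivity), one_mul]
    · refine le_add_of_le_of_nonneg ?_ (by positivity)
      by_cases h9 : (NN (g * θ ^ b) ((κ * 2 ^ (m * i) + 4 * κ * 2 ^ m * 2 ^ k + 1) *
          2 ^ (i + u)) : ℝ) < c * 2 ^ (i + u)
      · rw [ind_pos h9, mul_one_div, le_div_iff₀ h8, one_mul]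
        refine le_of_mul_le_mul_left ((h6 b).trans ?_) (show (0 : ℝ) < 2 ^ u by positivity)
        rw [show (2 : ℝ) ^ u * (2 * c * 2 ^ i) = c * 2 ^ (i + u) + c * 2 ^ (i + u) by ring]
        exact add_le_add (not_le.1 h).le h9.le
      · rw [ind_neg h9]
        positivity
  refine (sum_le_sum fun b _ => h7 b).trans ?_
  rw [sum_add_distrib, ← mul_sum, ← mul_sum]
  calc _ ≤ 2 * c * 2 ^ i * (2 ^ u * (i + 1)) +
        1 / (c * 2 ^ (i + u)) * ((ε * c + ε * c) * 4 ^ (i + u)) := by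
        gcongr
        exact h1.trans (by gcongr)
    _ = _ := by
        rw [show (4 : ℝ) = 2 * 2 by norm_num, mul_pow, hc]
        field_simp
        ring

end Pool.Agent.Lib.MP_a3366f_nt.Av
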