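import Mathlib
import Pool.Agent.Lib.MP_a3366f_nt.Av.Rec

/-!
From the iterated estimate to parity changes of the multipartition function, for most exponents.
-/

open Finset PowerSeries

namespace Pool.Agent.Lib.MP_a3366f_nt.Av

/-- The number of parity changes below `X`. -/
def Ch (t X : ℕ) : ℕ := ((range X).filter fun n => pt t n % 2 ≠ pt t (n + 1) % 2).card

theorem P1_const : constantCoeff P1 = 1 := by
  have := congrArg constantCoeff P1_mul_pent
  rwa [map_mul, pent_const, mul_one, map_one] at this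

theorem NN_le_Ch (t Y : ℕ) : NN ((1 + X) * P1 ^ t) Y ≤ Ch t Y + 1 := by
  have h1 : ((range Y).filter fun n => coeff n ((1 + X) * P1 ^ t) ≠ 0) ⊆
      insert 0 (((range Y).filter fun n => pt t n % 2 ≠ pt t (n + 1) % 2).image (· + 1)) := by
    intro n hn
    obtain ⟨h2, h3⟩ := mem_filter.1 hn
    rcases n with _ | n
    · exact mem_insert_self _ _
    · refine mem_insert_of_mem (mem_image.2 ⟨n, mem_filter.2
        ⟨mem_range.2 (by have := mem_range.1 h2; omega), fun h4 => h3 ?_⟩, rfl⟩)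
      rw [add_mul, one_mul, map_add, coeff_succ_X_mul, coeff_P1_pow, coeff_P1_pow,
        (ZMod.natCast_eq_natCast_iff' _ _ _).2 h4, CharTwo.add_self_eq_zero]
  exact (card_le_card h1).trans ((card_insert_le _ _).trans (Nat.add_le_add_right card_image_le _))

theorem block {κ m : ℕ} (hκ : 0 < κ) (hm : 2 ≤ m)
    (hL : ∀ s, 1 ≤ s → Line (P1 ^ 3) s (κ * 2 ^ (m * s))) {R Y : ℕ}
    (hY : κ * (R + 1) * 2 ^ R ≤ Y) (a : ℕ) :
    ∑ i ∈ range (3 * 2 ^ R), (1 : ℝ) / (Ch (a + i) Y + 1) ≤ 3 * Los m R := by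
  rw [sum_range_mul (fun i => (1 : ℝ) / (Ch (a + i) Y + 1)), sum_comm]
  refine (sum_le_card_nsmul _ _ (Los m R) fun i _ => ?_).trans (by simp)
  have h0 : Lo ((1 + X) * P1 ^ (a + i)) 0 := ⟨0, le_rfl, by simp [P1_const]⟩
  have h3 : constantCoeff (P1 ^ 3) = 1 := by rw [map_pow, P1_const, one_pow]
  refine le_trans (sum_le_sum fun b _ => one_div_le_one_div_of_le ?_ ?_)
    (rec_main hκ hm h3 hL R _ 0 h0)
  · exact_mod_cast (h0.mul (by rw [map_pow, h3, one_pow])).pos (by positivity)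
  · have h1 := NN_le_Ch (a + (3 * b + i)) Y
    have h2 : (1 + X) * P1 ^ (a + i) * (P1 ^ 3) ^ b = (1 + X) * P1 ^ (a + (3 * b + i)) := by ring
    rw [h2, zero_add]
    exact_mod_cast (NN_mono _ hY).trans h1

theorem ex_scale {κ Y : ℕ} (hκ : 0 < κ) (hY : κ ≤ Y) :
    ∃ R, κ * (R + 1) * 2 ^ R ≤ Y ∧ Y < κ * (R + 2) * 2 ^ (R + 1) := by
  classical
  have h1 : ∃ R, Y < κ * (R + 1) * 2 ^ R := ⟨Y, by
    calc Y < 1 * (Y + 1) * 1 := by omega
      _ ≤ κ * (Y + 1) * 2 ^ Y := by gcongr; exacts [hκ, Nat.one_le_two_pow]⟩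
  obtain h2 | ⟨R, h2⟩ : Nat.find h1 = 0 ∨ ∃ R, Nat.find h1 = R + 1 := by
    rcases Nat.find h1 with _ | R
    · exact Or.inl rfl
    · exact Or.inr ⟨R, rfl⟩
  · have := Nat.find_spec h1
    rw [h2] at this
    omega
  · exact ⟨R, not_lt.1 (Nat.find_min h1 (by omega)), by simpa only [h2] using Nat.find_spec h1⟩

theorem sum_inv {κ m : ℕ} (hκ : 0 < κ) (hm : 2 ≤ m)
    (hL : ∀ s, 1 ≤ s → Line (P1 ^ 3) s (κ * 2 ^ (m * s))) :
    ∃ C : ℝ, ∃ X₀ : ℕ, ∀ Y, X₀ ≤ Y → ∀ a, ∑ t ∈ Ico a (a + Y), (1 : ℝ) / (Ch t Y + 1) ≤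
      Real.exp (C * Real.log (Real.log Y) ^ 2) := by
  refine ⟨16 * m + 2 + 6 * 2 ^ m * κ, max κ 16, fun Y hY a => ?_⟩
  obtain ⟨R, h1, h2⟩ := ex_scale hκ (le_of_max_le_left hY)
  have h16 : (16 : ℝ) ≤ Y := by exact_mod_cast le_of_max_le_right hY
  have h3 : Y ≤ 3 * 2 ^ R * (κ * (R + 2)) := by
    rw [pow_succ] at h2
    nlinarith
  have h4 : ∑ t ∈ Ico a (a + Y), (1 : ℝ) / (Ch t Y + 1) ≤ (κ * (R + 2) : ℕ) * (3 * Los m R) := by
    rw [sum_Ico_eq_sum_range, Nat.add_sub_cancel_left]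
    refine (sum_le_sum_of_subset_of_nonneg (range_subset_range.2 h3)
      fun _ _ _ => by positivity).trans ?_
    rw [sum_range_mul (fun i => (1 : ℝ) / (Ch (a + i) Y + 1))]
    refine (sum_le_card_nsmul _ _ (3 * Los m R) fun j _ => ?_).trans (by simp)
    simpa only [add_assoc] using block hκ hm hL h1 (a + 3 * 2 ^ R * j)
  refine h4.trans ?_
  have hl2 := Real.log_two_gt_d9
  have h5 : (2.77 : ℝ) ≤ Real.log Y := by
    have := Real.log_le_log (by norm_num) h16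
    rw [show (16 : ℝ) = 2 ^ 4 by norm_num, Real.log_pow] at this
    push_cast at this
    linarith
  have h6 : (R : ℝ) * Real.log 2 ≤ Real.log Y := by
    rw [← Real.log_pow]
    refine Real.log_le_log (by positivity) ?_
    have : 2 ^ R ≤ Y := le_trans (Nat.le_mul_of_pos_left _ (by positivity)) h1
    exact_mod_cast this
  have hR : (0 : ℝ) ≤ R := Nat.cast_nonneg _
  have h7 : (R : ℝ) + 1 ≤ Real.log Y ^ 2 := by nlinarith
  set L := Real.log (Real.log Y) with hLd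
  have h8 : 1 ≤ L := by
    rw [hLd, Real.le_log_iff_exp_le (by linarith)]
    linarith [Real.exp_one_lt_d9]
  have h9 : Real.log (R + 1) ≤ 2 * L := by
    have := Real.log_le_log (by positivity) h7
    rwa [Real.log_pow, Nat.cast_ofNat] at this
  have h10 : 0 ≤ Real.log (R + 1) := Real.log_nonneg (by linarith)
  have h11 : (R : ℝ) + 1 ≤ Real.exp (2 * L) := by
    rw [← Real.exp_log (show (0 : ℝ) < R + 1 by positivity), Real.exp_le_exp]
    exact h9
  have hk : (0 : ℝ) ≤ κ := Nat.cast_nonneg _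
  set K : ℝ := 6 * 2 ^ m * κ with hK
  have hK0 : 0 ≤ K := by positivity
  have h12 : K ≤ Real.exp K := by linarith [Real.add_one_le_exp K]
  calc ((κ * (R + 2) : ℕ) : ℝ) * (3 * Los m R)
      ≤ K * (R + 1) * Real.exp (4 * m * Real.log (R + 1) ^ 2) := by
        rw [Los, hK]
        push_cast
        have := Real.exp_pos (4 * m * Real.log (R + 1) ^ 2)
        nlinarith [mul_nonneg (mul_nonneg (mul_nonneg hk hR) this.le)
          (show (0 : ℝ) ≤ 2 ^ m by positivity)]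
    _ ≤ Real.exp K * Real.exp (2 * L) * Real.exp (4 * m * (2 * L) ^ 2) := by gcongr
    _ ≤ Real.exp ((16 * m + 2 + K) * L ^ 2) := by
        rw [← Real.exp_add, ← Real.exp_add, Real.exp_le_exp]
        nlinarith [mul_nonneg hK0 (show 0 ≤ L ^ 2 - 1 by nlinarith)]

theorem count_main {κ m : ℕ} (hκ : 0 < κ) (hm : 2 ≤ m)
    (hL : ∀ s, 1 ≤ s → Line (P1 ^ 3) s (κ * 2 ^ (m * s))) :
    ∃ C : ℝ, ∃ X₀ : ℕ, ∀ X, X₀ ≤ X → ∀ a Y : ℕ,
      (((Ico a (a + X)).filter fun t => Ch t X ≤ Y).card : ℝ) ≤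
        (Y + 1) * Real.exp (C * Real.log (Real.log X) ^ 2) := by
  obtain ⟨C, X₀, h⟩ := sum_inv hκ hm hL
  refine ⟨C, X₀, fun X hX a Y => ?_⟩
  rw [← div_le_iff₀' (by positivity)]
  refine le_trans ?_ ((sum_le_sum_of_subset_of_nonneg
    (filter_subset (fun t => Ch t X ≤ Y) _) fun _ _ _ => by positivity).trans (h X hX a))
  rw [div_eq_mul_one_div, ← nsmul_eq_mul]
  refine card_nsmul_le_sum _ _ _ fun t ht => one_div_le_one_div_of_le (by positivity) ?_
  exact_mod_cast Nat.add_le_add_right (mem_filter.1 ht).2 1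

end Pool.Agent.Lib.MP_a3366f_nt.Av
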