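import Mathlib
import Pool.Agent.Lib.MP_a3366f_nt.ZConj
import Pool.Agent.Lib.MP_a3366f_nt.Av.Rec

/-!
The one block estimate: the minor attached to a choice of one point on each line of a given
direction is conjugate to a determinant that is congruent to one modulo `q`.
-/

open Finset

namespace Pool.Agent.Lib.MP_a3366f_nt.Av

open Ker Zt

theorem norm_fam {k : ℕ} (hk : 4 ≤ k) (T : ℤ → L2) (hO : ∀ w, T w ∈ OO 1)
    (hc : ∀ w w', w ≡ w' [ZMOD 2 ^ k] → T w = T w')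
    (hR : ∀ ψ b, Act (c := 1) ψ k b → ∀ w, Rel ψ (T w) (T (w * b ^ 2)))
    {a : ℤ} (ha : a ≡ 1 [ZMOD 2 ^ 3]) (h0 : T a ≠ 0) :
    (∀ r ∈ cl k 3 1, T r ≠ 0) ∧ ∑ r ∈ cl k 3 1, (T r).order ≤ 0 := by
  have h1 : ∀ r ∈ cl k 3 1, T r ≠ 0 := by
    obtain ⟨ψ, b, hb, h9⟩ := ex_nine (Or.inl rfl) hk
    have h2 : ∀ m : ℕ, T (a * (b ^ 2) ^ m) ≠ 0 := fun m => by
      induction m with
      | zero => simpa using h0
      | succ m ih =>
        rw [pow_succ, ← mul_assoc]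
        exact (hR ψ b hb _).ne_zero ih
    intro r hr
    obtain ⟨n, rfl⟩ := Nat.exists_eq_add_of_le' (show 3 ≤ k by omega)
    obtain ⟨m, hm⟩ := orbit_nine h9 (a := a) (by rw [Int.odd_iff]; rw [Int.ModEq] at ha; omega)
      ((mem_filter.1 hr).2.trans ha.symm) n
    rw [hc _ _ hm]
    exact h2 m
  refine ⟨h1, ?_⟩
  rw [← order_prod _ h1]
  refine order_fixed (Or.inl rfl) (prod_mem fun r _ => hO r) (prod_ne_zero_iff.2 h1) fun ψ => ?_
  obtain ⟨b, hb⟩ := ex_act (Or.inl rfl) ψ k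
  have h4 := rel_prod (cl k 3 1) fun r _ => hR ψ b hb r
  have h5 : (0 : ℤ) < 2 ^ k := by positivity
  have h6 : Set.InjOn (fun r => r * b ^ 2 % 2 ^ k) (cl k 3 1) := fun r hr r' hr' h => by
    have h7 : r % 2 ^ k = r' % 2 ^ k := cancel_odd hb.1.pow h
    have h8 := mem_Ico.1 (mem_filter.1 hr).1
    have h9 := mem_Ico.1 (mem_filter.1 hr').1
    rwa [Int.emod_eq_of_lt h8.1 h8.2, Int.emod_eq_of_lt h9.1 h9.2] at h7
  have h7 : (cl k 3 1).image (fun r => r * b ^ 2 % 2 ^ k) = cl k 3 1 := by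
    refine eq_of_subset_of_card_le (image_subset_iff.2 fun r hr => ?_)
      (card_image_of_injOn h6).ge
    refine mem_filter.2 ⟨mem_Ico.2 ⟨Int.emod_nonneg _ h5.ne', Int.emod_lt_of_pos _ h5⟩, ?_⟩
    refine ((Int.mod_modEq _ _).of_dvd (pow_dvd_pow 2 (by omega))).trans ?_
    have h8 : b ^ 2 ≡ 1 [ZMOD 2 ^ 3] := by
      obtain ⟨m, rfl⟩ := hb.1
      obtain ⟨l, hl⟩ := Int.even_mul_succ_self m
      rw [show (2 * m + 1) ^ 2 = 4 * (m * (m + 1)) + 1 by ring, hl, Int.ModEq]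
      omega
    simpa using (mem_filter.1 hr).2.mul h8
  have h8 : ∏ r ∈ cl k 3 1, T r = ∏ r ∈ cl k 3 1, T (r * b ^ 2) := by
    conv_lhs => rw [← h7]
    rw [prod_image h6]
    exact prod_congr rfl fun r _ => hc _ _ (Int.mod_modEq _ _)
  rwa [← h8] at h4

theorem rel_det {ψ : KK 1 →ₐ[F0 1] Om} {n : ℕ} {A B : Matrix (Fin n) (Fin n) L2}
    (h : ∀ i j, Rel ψ (A i j) (B i j)) : Rel ψ A.det B.det := by
  rw [Matrix.det_apply', Matrix.det_apply']
  exact rel_sum _ fun σ _ => (rel_F0 ψ (intCast_mem _ _)).mul (rel_prod _ fun i _ => h _ _)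

theorem det_OO {n : ℕ} {A : Matrix (Fin n) (Fin n) L2} (h : ∀ i j, A i j ∈ OO 1) :
    A.det ∈ OO 1 := by
  rw [Matrix.det_apply']
  exact sum_mem fun σ _ => mul_mem (intCast_mem _ _) (prod_mem fun i _ => h _ _)

/-- The substitution of `q ^ 8` for `q`. -/
noncomputable def io : S2 →+* L2 :=
  (HahnSeries.ofPowerSeries ℤ (ZMod 2)).comp (PowerSeries.expand 8 (by norm_num)).toRingHom

theorem coeff_io (u : S2) (n : ℤ) :
    (io u).coeff n = if 0 ≤ n ∧ 8 ∣ n then u.coeff (n / 8).toNat else 0 := by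
  show (HahnSeries.ofPowerSeries ℤ (ZMod 2) (PowerSeries.expand 8 (by norm_num) u)).coeff n = _
  rw [KSp.coeff_ofPS, PowerSeries.coeff_expand]
  by_cases h : n < 0
  · rw [if_pos h, if_neg (by omega)]
  · rw [if_neg h]
    by_cases h1 : 8 ∣ n
    · rw [if_pos (by omega), if_pos (by omega)]
      congr 2
      omega
    · rw [if_neg (by omega), if_neg (by omega)]

theorem io_inj : Function.Injective io := fun u v h => by
  ext n
  have h1 := coeff_io u (8 * n)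
  rw [h, coeff_io, if_pos (by omega), if_pos (by omega),
    show ((8 * n : ℤ) / 8).toNat = n by omega] at h1
  exact h1.symm

theorem order_io {u : S2} (h : io u ≠ 0) : 0 ≤ (io u).order ∧ Lo u (io u).order.toNat := by
  have h1 := mt HahnSeries.coeff_order_eq_zero.1 h
  rw [coeff_io] at h1
  split_ifs at h1 with h2
  · exact ⟨h2.1, _, by omega, h1⟩
  · exact absurd rfl h1

/-- The part of a power series with exponents congruent to `j` modulo `2 ^ s`. -/
noncomputable def pc (s : ℕ) (j : ℤ) (u : S2) : S2 :=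
  PowerSeries.mk fun n => if (n : ℤ) ≡ j [ZMOD 2 ^ s] then u.coeff n else 0

theorem cmp_io (s : ℕ) (j : ℤ) (u : S2) : cmp (s + 3) (8 * j) (io u) = io (pc s j u) := by
  ext n
  rw [coeff_cmp, coeff_io, coeff_io]
  by_cases h : 0 ≤ n ∧ 8 ∣ n
  · obtain ⟨h1, m, rfl⟩ := h
    obtain ⟨m, rfl⟩ := Int.eq_ofNat_of_zero_le (show 0 ≤ m by omega)
    rw [if_pos (show (0 : ℤ) ≤ 8 * m ∧ (8 : ℤ) ∣ 8 * m by omega),
      if_pos (show (0 : ℤ) ≤ 8 * m ∧ (8 : ℤ) ∣ 8 * m by omega),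
      show ((8 * m : ℤ) / 8).toNat = m by omega, pc, PowerSeries.coeff_mk]
    refine if_congr ?_ rfl rfl
    rw [show (2 : ℤ) ^ (s + 3) = 8 * 2 ^ s by ring]
    exact Int.ModEq.mul_left_cancel_iff' (by norm_num)
  · rw [if_neg h, if_neg h, ite_self]

theorem sum_pc (s : ℕ) (g : S2) : ∑ r : Fin (2 ^ s), pc s (r : ℕ) g = g := by
  ext n
  have h0 : 0 < 2 ^ s := by positivity
  rw [map_sum, sum_eq_single ⟨n % 2 ^ s, Nat.mod_lt _ h0⟩, pc, PowerSeries.coeff_mk, if_pos]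
  · exact_mod_cast Int.natCast_modEq_iff.2 (Nat.mod_modEq n (2 ^ s)).symm
  · intro r _ hr
    rw [pc, PowerSeries.coeff_mk, if_neg]
    intro h
    have h1 : n ≡ r [MOD 2 ^ s] := Int.natCast_modEq_iff.1 (by exact_mod_cast h)
    exact hr (Fin.ext (by rw [Nat.ModEq, Nat.mod_eq_of_lt r.2] at h1; exact h1.symm))
  · exact fun h => absurd (mem_univ _) h

theorem pc_mul (s : ℕ) (j : ℤ) (g u : S2) :
    pc s j (g * u) = ∑ r : Fin (2 ^ s), pc s (j - (r : ℕ)) u * pc s (r : ℕ) g := by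
  refine io_inj ?_
  conv_lhs => rw [← cmp_io, ← sum_pc s g, sum_mul, map_sum, map_sum]
  rw [map_sum]
  refine sum_congr rfl fun r _ => ?_
  rw [map_mul io, map_mul io, ← cmp_io, ← cmp_io, mul_comm _ (io u), ← cmp_mul (cls_cmp _ _ _)]
  congr 2
  ring

theorem cmp_sg (s b : ℕ) (j : ℤ) : cmp (s + 3) (8 * j - b) (sg 1 ^ b) =
    HahnSeries.single (-(b : ℤ)) 1 * io (pc s j ((P1 ^ 3) ^ b)) := by
  have h1 : sg 1 ^ b = io ((P1 ^ 3) ^ b) * HahnSeries.single (-(b : ℤ)) 1 := by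
    rw [sg_pow, KSp.S_neg (Or.inl rfl) (by norm_num), one_mul, mul_comm, ← pow_mul]
    rfl
  rw [h1, sub_eq_add_neg, cmp_mul, cmp_io, mul_comm]
  intro n hn
  rw [HahnSeries.eq_of_mem_support_single (show n ∈ HahnSeries.support _ from hn)]

section

variable (s c : ℕ) (β : Fin (2 ^ s) → ℕ)

/-- The conjugates of the minor, as power series. -/
noncomputable def MM (v : ℤ) : Matrix (Fin (2 ^ s)) (Fin (2 ^ s)) S2 := Matrix.of fun a r =>
  pc s (((a : ℕ) + c * β a - (r : ℕ)) * (1 + 8 * v) - v * β a) ((P1 ^ 3) ^ β a)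

/-- The conjugates of the minor, made integral. -/
noncomputable def NM (w : ℤ) : Matrix (Fin (2 ^ s)) (Fin (2 ^ s)) L2 := Matrix.of fun a r =>
  sg 1 ^ 4 ^ (s + 3) *
    cmp (s + 3) ((8 * ((a : ℕ) + c * β a - (r : ℕ)) - β a) * w) (sg 1 ^ β a)

theorem det_NM (v : ℤ) : (NM s c β (1 + 8 * v)).det =
    (∏ a, sg 1 ^ 4 ^ (s + 3) * HahnSeries.single (-(β a : ℤ)) 1) * io (MM s c β v).det := by
  rw [RingHom.map_det, ← Matrix.det_mul_column]
  congr 1
  ext1 a r
  simp only [NM, MM, Matrix.of_apply, RingHom.mapMatrix_apply, Matrix.map_apply]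
  rw [mul_assoc, ← cmp_sg]
  congr 3
  ring

theorem det_MM {v : ℤ} (hv : c * (1 + 8 * v) ≡ v [ZMOD 2 ^ s]) : (MM s c β v).det ≠ 0 := by
  intro h
  have h1 := RingHom.map_det PowerSeries.constantCoeff (MM s c β v)
  have h2 : PowerSeries.constantCoeff.mapMatrix (MM s c β v) = 1 := by
    ext a r
    have h3 : ((a : ℕ) + c * β a - (r : ℕ)) * (1 + 8 * v) - v * β a ≡
        ((a : ℕ) - (r : ℕ)) * (1 + 8 * v) [ZMOD 2 ^ s] := by
      have h4 := ((hv.mul_right (β a)).sub_right (v * β a)).add_left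
        (((a : ℕ) - (r : ℕ)) * (1 + 8 * v))
      rw [sub_self, add_zero] at h4
      convert h4 using 1
      ring
    simp only [MM, Matrix.of_apply, RingHom.mapMatrix_apply, Matrix.map_apply]
    rw [← PowerSeries.coeff_zero_eq_constantCoeff_apply, pc, PowerSeries.coeff_mk,
      PowerSeries.coeff_zero_eq_constantCoeff_apply, map_pow, map_pow,
      show PowerSeries.constantCoeff P1 = 1 by simp [P1], one_pow, one_pow, Matrix.one_apply]
    refine if_congr ⟨fun h4 => ?_, fun h4 => ?_⟩ rfl rfl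
    · have h5 := h4.trans h3
      rw [Nat.cast_zero, ← zero_mul (1 + 8 * v)] at h5
      have h6 := (cancel_odd ⟨4 * v, by ring⟩ h5).add_right (r : ℕ)
      rw [zero_add, sub_add_cancel] at h6
      have h7 : (r : ℕ) ≡ a [MOD 2 ^ s] := Int.natCast_modEq_iff.1 (by exact_mod_cast h6)
      rw [Nat.ModEq, Nat.mod_eq_of_lt r.2, Nat.mod_eq_of_lt a.2] at h7
      exact Fin.ext h7.symm
    · refine Int.ModEq.trans ?_ h3.symm
      rw [h4, sub_self, zero_mul, Nat.cast_zero]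
  rw [h, h2, map_zero, Matrix.det_one] at h1
  exact zero_ne_one h1

theorem lo_det (hs : 1 ≤ s) (hβ : ∀ a, β a < 2 ^ s) : Lo (MM s c β 0).det (520 * 16 ^ s) := by
  have hc : 1 = 1 ∨ 1 = 3 := Or.inl rfl
  set P : L2 := ∏ a, sg 1 ^ 4 ^ (s + 3) * HahnSeries.single (-(β a : ℤ)) 1 with hP
  have h1 : ∀ a, sg 1 ^ 4 ^ (s + 3) * HahnSeries.single (-(β a : ℤ)) (1 : ZMod 2) ≠ 0 := fun a =>
    mul_ne_zero (pow_ne_zero _ (sg_ne hc)) (HahnSeries.single_ne_zero one_ne_zero)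
  have h2 : P ≠ 0 := prod_ne_zero_iff.2 fun a _ => h1 a
  have h3 : -(2 ^ s * (65 * 4 ^ s)) ≤ P.order := by
    rw [hP, order_prod _ fun a _ => h1 a]
    refine le_trans ?_ (card_nsmul_le_sum _ _ (-(65 * 4 ^ s)) fun a _ => ?_)
    · simp
    · rw [HahnSeries.order_mul (pow_ne_zero _ (sg_ne hc)) (HahnSeries.single_ne_zero one_ne_zero),
        order_sg_pow hc, HahnSeries.order_single one_ne_zero]
      have h4 : β a ≤ 4 ^ s := (hβ a).le.trans (Nat.pow_le_pow_left (by norm_num) _)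
      have h5 : (β a : ℤ) ≤ 4 ^ s := by exact_mod_cast h4
      push_cast
      rw [pow_add]
      linarith
  obtain ⟨x, y, hxy⟩ := cop_two (b := 1 - 8 * c) ⟨-4 * c, by ring⟩ s
  have h4 := norm_fam (k := s + 3) (by omega) (fun w => (NM s c β w).det)
    (fun w => det_OO fun a r => cmp_AA hc _ (pow_mem (sg_AA 1) _) _)
    (fun w w' h => by
      congr 1
      ext1 a r
      simp only [NM, Matrix.of_apply]
      rw [cmp_congr (h.mul_left _)])
    (fun ψ b hb w => rel_det fun a r => by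
      simp only [NM, Matrix.of_apply]
      rw [← mul_assoc _ w]
      exact ((rel_F0 ψ (AA_le (sg_AA 1))).pow _).mul (hb.2 _ le_rfl _ (AA_le (pow_mem (sg_AA 1) _))
        (fun r => mem_of_sg hc (cmp_AA hc _ (pow_mem (sg_AA 1) _) r)) _))
    (a := 1 + 8 * (c * y)) (by rw [Int.ModEq]; omega) (by
      rw [det_NM]
      refine mul_ne_zero h2 ((map_ne_zero_iff _ io_inj).2 (det_MM s c β ?_))
      exact Int.modEq_iff_dvd.2 ⟨-(c * x), by linear_combination (c : ℤ) * hxy⟩)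
  have h5 : ∀ r ∈ cl (s + 3) 3 1, io (MM s c β (r / 8)).det ≠ 0 ∧ (NM s c β r).det.order =
      P.order + (io (MM s c β (r / 8)).det).order := fun r hr => by
    have h6 := h4.1 r hr
    have h7 : r = 1 + 8 * (r / 8) := by
      have := (mem_filter.1 hr).2
      rw [Int.ModEq] at this
      omega
    have h8 := det_NM s c β (r / 8)
    rw [← h7] at h8
    rw [h8] at h6 ⊢
    exact ⟨right_ne_zero_of_mul h6, HahnSeries.order_mul h2 (right_ne_zero_of_mul h6)⟩
  have h6 : (1 : ℤ) ∈ cl (s + 3) 3 1 :=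
    mem_filter.2 ⟨mem_Ico.2 ⟨zero_le_one, one_lt_pow₀ one_lt_two (by omega)⟩, rfl⟩
  have h7 := h4.2
  rw [sum_congr rfl fun r hr => (h5 r hr).2, sum_add_distrib, sum_const, nsmul_eq_mul] at h7
  have h8 := single_le_sum (fun r hr => (order_io (h5 r hr).1).1) h6
  have h9 : ((cl (s + 3) 3 1).card : ℤ) ≤ 8 * 2 ^ s := by
    have := card_filter_le (Ico (0 : ℤ) (2 ^ (s + 3))) fun r => r ≡ 1 [ZMOD 2 ^ 3]
    rw [Int.card_Ico, sub_zero] at this
    have h10 : (0 : ℤ) < 2 ^ (s + 3) := by positivity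
    rw [show (8 : ℤ) * 2 ^ s = 2 ^ (s + 3) by ring, cl]
    omega
  obtain ⟨n, h10, h11⟩ := (order_io (h5 1 h6).1).2
  rw [show (1 : ℤ) / 8 = 0 by norm_num] at h8 h10 h11
  refine ⟨n, h10.trans (Int.toNat_le.2 ?_), h11⟩
  have h12 : (16 : ℤ) ^ s = 2 ^ s * (2 ^ s * 4 ^ s) := by rw [← mul_pow, ← mul_pow]; norm_num
  have h13 := mul_le_mul_of_nonneg_left h3 (Nat.cast_nonneg (cl (s + 3) 3 1).card)
  have h14 := mul_le_mul_of_nonneg_right h9 (show (0 : ℤ) ≤ 2 ^ s * (65 * 4 ^ s) by positivity)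
  push_cast
  rw [h12]
  linarith

end

theorem line_main (s : ℕ) (hs : 1 ≤ s) : Line (P1 ^ 3) s (520 * 16 ^ s) := by
  intro g o hg c
  by_contra! h
  choose β hβ h using fun a : Fin (2 ^ s) => h a
  obtain ⟨n, hn, h1⟩ := lo_det s c β hs hβ
  obtain ⟨m, hm, h2⟩ := hg
  set M := MM s c β 0 with hM
  have h3 : ∀ a, PowerSeries.X ^ (o + 520 * 16 ^ s + 1) ∣
      M.mulVec (fun r => pc s (r : ℕ) g) a := fun a => by
    have h4 : M.mulVec (fun r => pc s (r : ℕ) g) a =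
        pc s ((a : ℕ) + c * β a) (g * (P1 ^ 3) ^ β a) := by
      rw [pc_mul]
      simp [Matrix.mulVec, dotProduct, hM, MM]
    rw [h4, PowerSeries.X_pow_dvd_iff]
    intro l hl
    rw [pc, PowerSeries.coeff_mk]
    split_ifs with h5
    · exact h a l (by omega) (Int.natCast_modEq_iff.1 (by exact_mod_cast h5))
    · rfl
  have h4 : PowerSeries.X ^ (o + 520 * 16 ^ s + 1) ∣ M.det * g := by
    rw [← sum_pc s g, mul_sum]
    refine dvd_sum fun r _ => ?_
    have h5 := congrFun (Matrix.mulVec_mulVec (fun r : Fin (2 ^ s) => pc s (r : ℕ) g) M.adjugate M) r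
    rw [Matrix.adjugate_mul, Matrix.smul_mulVec, Matrix.one_mulVec, Pi.smul_apply,
      smul_eq_mul] at h5
    rw [← h5, Matrix.mulVec, dotProduct]
    exact dvd_sum fun a _ => (h3 a).mul_left _
  have h5 := PowerSeries.nat_le_order _ _ (PowerSeries.X_pow_dvd_iff.1 h4)
  rw [PowerSeries.order_mul] at h5
  have h6 := h5.trans (add_le_add (PowerSeries.order_le n h1) (PowerSeries.order_le m h2))
  have h7 : o + 520 * 16 ^ s + 1 ≤ n + m := by exact_mod_cast h6
  omega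

end Pool.Agent.Lib.MP_a3366f_nt.Av
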