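import Mathlib
import Pool.Agent.Lib.MP_a3366f_nt.Av.Line

/-!
Fat lines: the minor whose rows are sums over the subsets of a set of binary digits.
-/

open Finset

namespace Pool.Agent.Lib.MP_a3366f_nt.Av

open Ker Zt

theorem lo_fam {s : ℕ} (hs : 1 ≤ s) (T : ℤ → L2) (d : ℤ → S2) (N : ℕ) (hO : ∀ w, T w ∈ OO 1)
    (hc : ∀ w w', w ≡ w' [ZMOD 2 ^ (s + 3)] → T w = T w')
    (hR : ∀ ψ b, Act (c := 1) ψ (s + 3) b → ∀ w, Rel ψ (T w) (T (w * b ^ 2)))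
    (hT : ∀ v, T (1 + 8 * v) = sg 1 ^ N * io (d v)) {v : ℤ} (hv : d v ≠ 0) :
    Lo (d 0) (8 * 2 ^ s * N) := by
  have hc1 : 1 = 1 ∨ 1 = 3 := Or.inl rfl
  have h2 : sg 1 ^ N ≠ 0 := pow_ne_zero _ (sg_ne hc1)
  have h4 := norm_fam (k := s + 3) (by omega) T hO hc hR (a := 1 + 8 * v)
    (by rw [Int.ModEq]; omega) (hT v ▸ mul_ne_zero h2 ((map_ne_zero_iff _ io_inj).2 hv))
  have h5 : ∀ r ∈ cl (s + 3) 3 1, io (d (r / 8)) ≠ 0 ∧ (T r).order =
      -(N : ℤ) + (io (d (r / 8))).order := fun r hr => by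
    have h6 := h4.1 r hr
    have h7 : r = 1 + 8 * (r / 8) := by
      have := (mem_filter.1 hr).2
      rw [Int.ModEq] at this
      omega
    have h8 := hT (r / 8)
    rw [← h7] at h8
    rw [h8] at h6 ⊢
    refine ⟨right_ne_zero_of_mul h6, ?_⟩
    rw [HahnSeries.order_mul h2 (right_ne_zero_of_mul h6), order_sg_pow hc1, Nat.cast_one, one_mul]
  have h6 : (1 : ℤ) ∈ cl (s + 3) 3 1 :=
    mem_filter.2 ⟨mem_Ico.2 ⟨zero_le_one, one_lt_pow₀ one_lt_two (by omega)⟩, rfl⟩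
  have h7 := h4.2
  rw [sum_congr rfl fun r hr => (h5 r hr).2, sum_add_distrib, sum_const, nsmul_eq_mul] at h7
  have h8 := single_le_sum (fun r hr => (order_io (h5 r hr).1).1) h6
  have h9 : ((cl (s + 3) 3 1).card : ℤ) ≤ 8 * 2 ^ s := by
    have := card_filter_le (Ico (0 : ℤ) (2 ^ (s + 3))) fun r => r ≡ 1 [ZMOD 2 ^ 3]
    rw [Int.card_Ico, sub_zero] at this
    have h10 : (0 : ℤ) < 2 ^ (s + 3) := by positivity
    rw [show (8 : ℤ) * 2 ^ s = 2 ^ (s + 3) by ring, cl]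
    omega
  obtain ⟨n, h10, h11⟩ := (order_io (h5 1 h6).1).2
  rw [show (1 : ℤ) / 8 = 0 by norm_num] at h8 h10 h11
  refine ⟨n, h10.trans (Int.toNat_le.2 ?_), h11⟩
  have h14 := mul_le_mul_of_nonneg_right h9 (Nat.cast_nonneg (α := ℤ) N)
  push_cast
  linarith

theorem cramer_lo {s C o : ℕ} {M : Matrix (Fin (2 ^ s)) (Fin (2 ^ s)) S2} {g : S2}
    (hM : Lo M.det C) (hg : Lo g o) (h3 : ∀ a, PowerSeries.X ^ (o + C + 1) ∣
      M.mulVec (fun r => pc s (r : ℕ) g) a) : False := by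
  obtain ⟨n, hn, h1⟩ := hM
  obtain ⟨m, hm, h2⟩ := hg
  have h4 : PowerSeries.X ^ (o + C + 1) ∣ M.det * g := by
    rw [← sum_pc s g, mul_sum]
    refine dvd_sum fun r _ => ?_
    have h5 := congrFun
      (Matrix.mulVec_mulVec (fun r : Fin (2 ^ s) => pc s (r : ℕ) g) M.adjugate M) r
    rw [Matrix.adjugate_mul, Matrix.smul_mulVec, Matrix.one_mulVec, Pi.smul_apply,
      smul_eq_mul] at h5
    rw [← h5, Matrix.mulVec, dotProduct]
    exact dvd_sum fun a _ => (h3 a).mul_left _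
  have h5 := PowerSeries.nat_le_order _ _ (PowerSeries.X_pow_dvd_iff.1 h4)
  rw [PowerSeries.order_mul] at h5
  have h6 := h5.trans (add_le_add (PowerSeries.order_le n h1) (PowerSeries.order_le m h2))
  have h7 : o + C + 1 ≤ n + m := by exact_mod_cast h6
  omega

theorem det_ne {n : ℕ} (M : Matrix (Fin n) (Fin n) S2) (o : Fin n → ℕ)
    (h : ∀ a r, ∀ m ≤ o a, (M a r).coeff m = if m = o a ∧ a = r then 1 else 0) : M.det ≠ 0 := by
  have h1 : ∀ a r, ∃ y, M a r = PowerSeries.X ^ o a * y := fun a r =>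
    PowerSeries.X_pow_dvd_iff.2 fun m hm => by rw [h a r m hm.le, if_neg (by omega)]
  choose y hy using h1
  have h2 : M = Matrix.of fun a r => PowerSeries.X ^ o a * Matrix.of y a r := by
    ext1 a r
    exact hy a r
  have h3 : PowerSeries.constantCoeff.mapMatrix (Matrix.of y) = 1 := by
    ext a r
    have h4 := h a r _ le_rfl
    rw [hy, PowerSeries.coeff_X_pow_mul', if_pos le_rfl, Nat.sub_self] at h4
    simpa [Matrix.one_apply] using h4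
  rw [h2, Matrix.det_mul_column]
  refine mul_ne_zero (prod_ne_zero_iff.2 fun a _ => pow_ne_zero _ PowerSeries.X_ne_zero) fun h4 => ?_
  have h5 := RingHom.map_det PowerSeries.constantCoeff (Matrix.of y)
  rw [h4, h3, map_zero, Matrix.det_one] at h5
  exact zero_ne_one h5

theorem cmp_Dl_io (s : ℕ) (u : ℤ) :
    cmp (s + 3) (8 * u + 1) (Dl 1) = HahnSeries.single 1 1 * io (pc s u (pent ^ 3)) := by
  have h1 : Dl 1 = io (pent ^ 3) * HahnSeries.single 1 1 := by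
    rw [Dl, KSp.S_pow (Or.inl rfl) (by norm_num), mul_comm]
    rfl
  rw [h1, cmp_mul, cmp_io, mul_comm]
  intro n hn
  rw [HahnSeries.eq_of_mem_support_single (show n ∈ HahnSeries.support _ from hn)]

theorem coeff_congr {N m : ℕ} {x y : S2} (h : PowerSeries.X ^ N ∣ x - y) (hm : m < N) :
    x.coeff m = y.coeff m := by
  have := PowerSeries.X_pow_dvd_iff.1 h m hm
  rwa [map_sub, sub_eq_zero] at this

theorem pc_one {s : ℕ} {u : ℤ} (hu : u ≡ 0 [ZMOD 2 ^ s]) :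
    PowerSeries.X ^ 2 ^ s ∣ pc s u (pent ^ 3) - 1 := by
  refine PowerSeries.X_pow_dvd_iff.2 fun m hm => ?_
  rw [map_sub, pc, PowerSeries.coeff_mk, PowerSeries.coeff_one, sub_eq_zero]
  by_cases h : m = 0
  · rw [h, if_pos (by simpa using hu.symm), if_pos rfl,
      PowerSeries.coeff_zero_eq_constantCoeff_apply, map_pow, pent_const, one_pow]
  · rw [if_neg h, if_neg fun h1 => h ?_]
    have h2 : 2 ^ s ∣ m := by exact_mod_cast Int.modEq_zero_iff_dvd.1 (h1.trans hu)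
    exact Nat.eq_zero_of_dvd_of_lt h2 hm

theorem th_split : ∃ τ : S2, PowerSeries.constantCoeff τ = 1 ∧
    1 + P1 ^ 3 = PowerSeries.X * τ := by
  have c0 : PowerSeries.constantCoeff P1 = 1 := by simp [P1]
  obtain ⟨τ, h⟩ : PowerSeries.X ∣ 1 + P1 ^ 3 := PowerSeries.X_dvd_iff.2 (by
    rw [map_add, map_pow, c0, one_pow, map_one]; rfl)
  refine ⟨τ, ?_, h⟩
  have h1 := congrArg (PowerSeries.coeff (0 + 1)) h
  rw [PowerSeries.coeff_succ_X_mul, map_add, zero_add, PowerSeries.coeff_one_pow, c0,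
    PowerSeries.coeff_zero_eq_constantCoeff_apply] at h1
  rw [← h1]
  simp [P1, PowerSeries.coeff_one]
  rfl

theorem pow_congr {l b b' : ℕ} (h : b ≡ b' [MOD 2 ^ l]) :
    PowerSeries.X ^ 2 ^ l ∣ (P1 ^ 3) ^ b - (P1 ^ 3) ^ b' := by
  obtain ⟨τ, -, h1⟩ := th_split
  rw [← Ideal.mem_span_singleton, ← Ideal.Quotient.eq, map_pow _ _ b, map_pow _ _ b']
  have h2 : Ideal.Quotient.mk (Ideal.span {(PowerSeries.X : S2) ^ 2 ^ l}) (P1 ^ 3) ^ 2 ^ l = 1 := by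
    rw [← map_pow, ← map_one (Ideal.Quotient.mk _), Ideal.Quotient.eq, Ideal.mem_span_singleton,
      CharTwo.sub_eq_add, ← one_pow (2 ^ l), ← add_pow_char_pow, add_comm, h1, mul_pow]
    exact dvd_mul_right _ _
  rw [pow_eq_pow_mod b h2, pow_eq_pow_mod b' h2, h]

theorem coeff_sum_pow (P : Finset ℕ) (β m : ℕ) (hm : m ≤ ∑ i ∈ P, 2 ^ i) :
    (∑ E ∈ P.powerset, (P1 ^ 3) ^ (β + ∑ i ∈ E, 2 ^ i)).coeff m =
      if m = ∑ i ∈ P, 2 ^ i then 1 else 0 := by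
  obtain ⟨τ, h0, h1⟩ := th_split
  have c0 : PowerSeries.constantCoeff P1 = 1 := by simp [P1]
  have h2 : ∑ E ∈ P.powerset, (P1 ^ 3) ^ (β + ∑ i ∈ E, 2 ^ i) =
      PowerSeries.X ^ (∑ i ∈ P, 2 ^ i) * (τ ^ (∑ i ∈ P, 2 ^ i) * (P1 ^ 3) ^ β) := by
    rw [← mul_assoc, ← mul_pow, ← h1, ← prod_pow_eq_pow_sum,
      prod_congr rfl fun i _ => add_pow_char_pow (1 : S2) (P1 ^ 3) 2 i]
    simp only [one_pow]
    rw [prod_one_add, sum_mul]
    exact sum_congr rfl fun E _ => by rw [prod_pow_eq_pow_sum, pow_add, mul_comm]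
  rw [h2, PowerSeries.coeff_X_pow_mul']
  by_cases h : m = ∑ i ∈ P, 2 ^ i
  · rw [if_pos h.ge, if_pos h, h, Nat.sub_self]
    simp [h0, c0]
  · rw [if_neg (by omega), if_neg h]

section

variable (s c : ℕ) (P : Fin (2 ^ s) → Finset ℕ) (b : Fin (2 ^ s) → Finset ℕ → ℕ)

/-- The class attached to a row, a subset and a column. -/
def cj (a r : Fin (2 ^ s)) (E : Finset ℕ) : ℤ :=
  (a : ℕ) + (1 - 8 * c) * (∑ i ∈ P a, 2 ^ i : ℕ) + c * b a E - (r : ℕ)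

/-- The conjugates of the fat minor, as power series. -/
noncomputable def FM (v : ℤ) : Matrix (Fin (2 ^ s)) (Fin (2 ^ s)) S2 := Matrix.of fun a r =>
  ∑ E ∈ (P a).powerset, pc s (v - c * (1 + 8 * v)) (pent ^ 3) ^ b a E *
    pc s (cj s c P b a r E * (1 + 8 * v) - v * b a E) ((P1 ^ 3) ^ b a E)

/-- The conjugates of the fat minor, made integral. -/
noncomputable def FN (w : ℤ) : Matrix (Fin (2 ^ s)) (Fin (2 ^ s)) L2 := Matrix.of fun a r =>
  sg 1 ^ (EE s * 2 ^ s + 4 ^ (s + 3)) * ∑ E ∈ (P a).powerset,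
    cmp (s + 3) ((1 - 8 * c) * w) (Dl 1) ^ b a E *
      cmp (s + 3) ((8 * cj s c P b a r E - b a E) * w) (sg 1 ^ b a E)

theorem det_FN (v : ℤ) : (FN s c P b (1 + 8 * v)).det =
    sg 1 ^ (2 ^ s * (EE s * 2 ^ s + 4 ^ (s + 3))) * io (FM s c P b v).det := by
  have h : FN s c P b (1 + 8 * v) =
      sg 1 ^ (EE s * 2 ^ s + 4 ^ (s + 3)) • io.mapMatrix (FM s c P b v) := by
    ext1 a r
    simp only [FN, FM, Matrix.of_apply, RingHom.mapMatrix_apply, Matrix.map_apply,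
      Matrix.smul_apply, smul_eq_mul]
    rw [map_sum]
    refine congrArg _ (sum_congr rfl fun E _ => ?_)
    rw [show (1 - 8 * (c : ℤ)) * (1 + 8 * v) = 8 * (v - c * (1 + 8 * v)) + 1 by ring, cmp_Dl_io,
      show (8 * cj s c P b a r E - b a E) * (1 + 8 * v) =
        8 * (cj s c P b a r E * (1 + 8 * v) - v * b a E) - b a E by ring, cmp_sg, mul_pow,
      mul_mul_mul_comm, HahnSeries.single_pow, HahnSeries.single_mul_single, map_mul io,
      map_pow io]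
    simp
  rw [h, Matrix.det_smul, RingHom.map_det, Fintype.card_fin, ← pow_mul, mul_comm (2 ^ s)]

theorem det_FM {v : ℤ} (hv : c * (1 + 8 * v) ≡ v [ZMOD 2 ^ s]) (l β : Fin (2 ^ s) → ℕ)
    (hl : ∀ a, l a ≤ s) (hP : ∀ a, ∀ i ∈ P a, i < l a)
    (hb : ∀ a, ∀ E ⊆ P a, b a E ≡ β a + ∑ i ∈ E, 2 ^ i [MOD 2 ^ l a]) :
    (FM s c P b v).det ≠ 0 := by
  have hu : v - c * (1 + 8 * v) ≡ 0 [ZMOD 2 ^ s] := by
    simpa using hv.symm.sub_right (c * (1 + 8 * v))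
  refine det_ne _ (fun a => ∑ i ∈ P a, 2 ^ i) fun a r m hm => ?_
  have h1 : m < 2 ^ l a := hm.trans_lt (Nat.geomSum_lt le_rfl (hP a))
  have h2 : m < 2 ^ s := h1.trans_le (Nat.pow_le_pow_right two_pos (hl a))
  have h3 : ∀ E ∈ (P a).powerset, (pc s (v - c * (1 + 8 * v)) (pent ^ 3) ^ b a E *
      pc s (cj s c P b a r E * (1 + 8 * v) - v * b a E) ((P1 ^ 3) ^ b a E)).coeff m =
      if (m : ℤ) ≡ ((a : ℕ) - (r : ℕ)) * (1 + 8 * v) + (∑ i ∈ P a, 2 ^ i : ℕ) [ZMOD 2 ^ s] then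
        ((P1 ^ 3) ^ (β a + ∑ i ∈ E, 2 ^ i)).coeff m else 0 := fun E hE => by
    have h4 := ((pc_one hu).trans (sub_dvd_pow_sub_pow _ 1 (b a E))).mul_right
      (pc s (cj s c P b a r E * (1 + 8 * v) - v * b a E) ((P1 ^ 3) ^ b a E))
    rw [one_pow, sub_mul, one_mul] at h4
    rw [coeff_congr h4 h2, pc, PowerSeries.coeff_mk,
      coeff_congr (pow_congr (hb a E (mem_powerset.1 hE))) h1]
    have h5 : cj s c P b a r E * (1 + 8 * v) - v * b a E ≡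
        ((a : ℕ) - (r : ℕ)) * (1 + 8 * v) + (∑ i ∈ P a, 2 ^ i : ℕ) [ZMOD 2 ^ s] := by
      have h6 := (hu.mul_right (8 * (∑ i ∈ P a, 2 ^ i : ℕ) - b a E)).add_left
        (((a : ℕ) - (r : ℕ)) * (1 + 8 * v) + (∑ i ∈ P a, 2 ^ i : ℕ))
      rw [zero_mul, add_zero] at h6
      convert h6 using 1
      rw [cj]
      ring
    exact if_congr ⟨fun h => h.trans h5, fun h => h.trans h5.symm⟩ rfl rfl
  simp only [FM, Matrix.of_apply]
  rw [map_sum, sum_congr rfl h3, sum_ite_irrel, sum_const_zero, ← map_sum, coeff_sum_pow _ _ _ hm]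
  by_cases h : m = ∑ i ∈ P a, 2 ^ i
  · rw [if_pos h, ← h]
    refine if_congr ⟨fun h4 => ⟨rfl, ?_⟩, fun h4 => by rw [h4.2, sub_self, zero_mul, zero_add]⟩
      rfl rfl
    have h5 := h4.sub_right m
    rw [sub_self, add_sub_cancel_right, ← zero_mul (1 + 8 * v)] at h5
    have h6 := (cancel_odd ⟨4 * v, by ring⟩ h5).add_right (r : ℕ)
    rw [zero_add, sub_add_cancel] at h6
    have h7 : (r : ℕ) ≡ a [MOD 2 ^ s] := Int.natCast_modEq_iff.1 (by exact_mod_cast h6)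
    rw [Nat.ModEq, Nat.mod_eq_of_lt r.2, Nat.mod_eq_of_lt a.2] at h7
    exact Fin.ext h7.symm
  · rw [if_neg h, ite_self, if_neg fun h4 => h h4.1]

theorem lo_FM (hs : 1 ≤ s) (l β : Fin (2 ^ s) → ℕ) (hl : ∀ a, l a ≤ s)
    (hP : ∀ a, ∀ i ∈ P a, i < l a) (hb : ∀ a, ∀ E ⊆ P a, b a E < 2 ^ s ∧
      b a E ≡ β a + ∑ i ∈ E, 2 ^ i [MOD 2 ^ l a]) :
    Lo (FM s c P b 0).det (528 * 2 ^ (5 * s)) := by
  have hc : 1 = 1 ∨ 1 = 3 := Or.inl rfl
  obtain ⟨x, y, hxy⟩ := cop_two (b := 1 - 8 * c) ⟨-4 * c, by ring⟩ s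
  have hD := fun r => cmp_Dl hc (k := s + 3) (n := s) le_rfl r
  have hA := fun m r => cmp_AA hc (s + 3) (pow_mem (sg_AA 1) m) r
  obtain ⟨n, h1, h2⟩ := lo_fam hs (fun w => (FN s c P b w).det) (fun v => (FM s c P b v).det) _
    (fun w => det_OO fun a r => by
      simp only [FN, Matrix.of_apply]
      rw [mul_sum]
      refine sum_mem fun E hE => ?_
      obtain ⟨m, hm⟩ := Nat.exists_eq_add_of_le (hb a E (mem_powerset.1 hE)).1.le
      rw [pow_add, mul_mul_mul_comm, pow_mul]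
      refine mul_mem ?_ (hA _ _)
      conv => enter [2, 1, 2]; rw [hm, add_comm]
      rw [pow_add, mul_assoc, ← mul_pow]
      exact mul_mem (pow_mem (pow_mem (AA_OO (sg_AA 1)) _) _) (pow_mem (hD _) _))
    (fun w w' h => by
      congr 1
      ext1 a r
      simp only [FN, Matrix.of_apply]
      rw [cmp_congr (h.mul_left _)]
      exact congrArg _ (sum_congr rfl fun E _ => by rw [cmp_congr (h.mul_left _)]))
    (fun ψ β hβ w => rel_det fun a r => by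
      simp only [FN, Matrix.of_apply, ← mul_assoc _ w]
      exact ((rel_F0 ψ (AA_le (sg_AA 1))).pow _).mul (rel_sum _ fun E _ =>
        ((hβ.2 _ le_rfl _ (Dl_F0 1) (fun r => mem_of_sg hc (hD r)) _).pow _).mul
          (hβ.2 _ le_rfl _ (AA_le (pow_mem (sg_AA 1) _)) (fun r => mem_of_sg hc (hA _ r)) _)))
    (det_FN s c P b) (v := c * y) (det_FM s c P b
      (Int.modEq_iff_dvd.2 ⟨-(c * x), by linear_combination (c : ℤ) * hxy⟩) l β hl hP
      fun a E hE => (hb a E hE).2)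
  refine ⟨n, h1.trans ?_, h2⟩
  have h3 := EE_le s
  have h4 : 1 ≤ 2 ^ s := Nat.one_le_two_pow
  calc 8 * 2 ^ s * (2 ^ s * (EE s * 2 ^ s + 4 ^ (s + 3)))
      ≤ 8 * 2 ^ s * (2 ^ s * (2 * 4 ^ s * 2 ^ s + 4 ^ (s + 3) * 2 ^ s)) := by
        gcongr
        exact Nat.le_mul_of_pos_right _ h4
    _ = 528 * 2 ^ (5 * s) := by
        rw [pow_add, show 4 ^ s = 2 ^ s * 2 ^ s from mul_pow 2 2 s]
        ring

end

theorem fat_main (k : ℕ) (hk : 1 ≤ k) (g : S2) (T : ℕ) (hg : Lo g T) (c : ℕ) :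
    ∃ r : ℕ, ∀ (l : ℕ) (P : Finset ℕ) (β : ℕ), l ≤ k → (∀ i ∈ P, i < l) → ∃ E ⊆ P, ∀ b < 2 ^ k,
      b ≡ β + ∑ i ∈ E, 2 ^ i [MOD 2 ^ l] → ∃ n ≤ T + 528 * 2 ^ (5 * k),
        n + 8 * c * (∑ i ∈ P, 2 ^ i) ≡ r + (∑ i ∈ P, 2 ^ i) + c * b [MOD 2 ^ k] ∧
          PowerSeries.coeff n (g * (P1 ^ 3) ^ b) ≠ 0 := by
  by_contra! h
  choose l P β hl hP h using fun a : Fin (2 ^ k) => h a
  choose! b hb hb' h using h
  refine cramer_lo (lo_FM k c P b hk l β hl hP fun a E hE => ⟨hb a E hE, hb' a E hE⟩) hg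
    fun a => ?_
  have h4 : (FM k c P b 0).mulVec (fun r => pc k (r : ℕ) g) a =
      ∑ E ∈ (P a).powerset, pc k (-c) (pent ^ 3) ^ b a E *
        pc k ((a : ℕ) + (1 - 8 * c) * (∑ i ∈ P a, 2 ^ i : ℕ) + c * b a E)
          (g * (P1 ^ 3) ^ b a E) := by
    simp only [pc_mul, mul_sum]
    rw [sum_comm]
    simp [Matrix.mulVec, dotProduct, FM, cj, sum_mul, mul_assoc]
  rw [h4]
  refine dvd_sum fun E hE => Dvd.dvd.mul_left (PowerSeries.X_pow_dvd_iff.2 fun n hn => ?_) _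
  rw [pc, PowerSeries.coeff_mk]
  split_ifs with h5
  · refine h a E (mem_powerset.1 hE) n (by omega) (Int.natCast_modEq_iff.1 ?_)
    have h6 := h5.add_right (8 * c * (∑ i ∈ P a, 2 ^ i : ℕ))
    push_cast at h6 ⊢
    convert h6 using 1
    ring
  · rfl

end Pool.Agent.Lib.MP_a3366f_nt.Av
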