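import Mathlib
import Pool.Agent.Lib.MP_a3366f_nt.Av.Chain
import Pool.Agent.Lib.MP_a3366f_nt.Av.Count
import Pool.Agent.Lib.MP_a3366f_nt.Av.Fat

/-!
A positive share of parity changes of the multipartition function, for most exponents.
-/

open Finset PowerSeries

namespace Pool.Agent.Lib.MP_a3366f_nt.Av

theorem pos_main {ε : ℝ} (hε : 0 < ε) : ∃ c : ℝ, 0 < c ∧ ∃ X₀ : ℕ, ∀ Y, X₀ ≤ Y → ∀ a : ℕ,
    (((Ico a (a + Y)).filter fun t => (Ch t Y : ℝ) < c * Y).card : ℝ) ≤ ε * Y := by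
  classical
  have h3 : constantCoeff (P1 ^ 3) = 1 := by rw [map_pow, P1_const, one_pow]
  obtain ⟨c, hc, Γ, K₀, hΓ, h⟩ := rows (θ := P1 ^ 3) (κ := 528) (m := 5) (by norm_num)
    (by norm_num) h3 fat_main (ε := ε / 9) (by positivity)
  obtain ⟨K₁, hK₁⟩ := exists_nat_ge (2 / c)
  have hΓ' : (0 : ℝ) < Γ := by exact_mod_cast hΓ
  refine ⟨c / (4 * Γ), by positivity, Γ * 2 ^ max K₀ K₁, fun Y hY a => ?_⟩
  have h0 : 2 ^ max K₀ K₁ ≤ Y / Γ := (Nat.le_div_iff_mul_le hΓ).2 (mul_comm Γ _ ▸ hY)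
  obtain ⟨K, hK⟩ : ∃ K, K = Nat.log 2 (Y / Γ) := ⟨_, rfl⟩
  have h1 : max K₀ K₁ ≤ K := hK ▸ Nat.le_log_of_pow_le one_lt_two h0
  have h2 : Γ * 2 ^ K ≤ Y := by
    rw [mul_comm, ← Nat.le_div_iff_mul_le hΓ, hK]
    exact Nat.pow_log_le_self 2 ((Nat.two_pow_pos _).trans_le h0).ne'
  have h4 : Y < 2 ^ (K + 1) * Γ := by
    rw [← Nat.div_lt_iff_lt_mul hΓ, hK]
    exact Nat.lt_pow_succ_log_self one_lt_two _
  have h2' : (Γ : ℝ) * 2 ^ K ≤ Y := by exact_mod_cast h2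
  have h4' : (Y : ℝ) ≤ 2 ^ (K + 1) * Γ := by exact_mod_cast h4.le
  have h5 : 2 ≤ c * 2 ^ K := by
    rw [div_le_iff₀' hc] at hK₁
    refine hK₁.trans (mul_le_mul_of_nonneg_left ?_ hc.le)
    exact_mod_cast (le_of_max_le_right h1).trans Nat.lt_two_pow_self.le
  have h6 : c / (4 * Γ) * Y + 1 ≤ c * 2 ^ K := by
    have : c / (4 * Γ) * Y ≤ c * 2 ^ K / 2 :=
      (mul_le_mul_of_nonneg_left h4' (by positivity)).trans (le_of_eq (by field_simp; ring))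
    linarith
  have h7 : ∀ t : ℕ, ∑ b ∈ range (2 ^ K), ind ((Ch (t + 3 * b) Y : ℝ) < c / (4 * Γ) * Y) ≤
      3 * (ε / 9) * 2 ^ K := fun t => by
    refine le_trans (sum_le_sum fun b _ => ind_mono fun h7 => ?_)
      (h K (le_of_max_le_left h1) ((1 + X) * P1 ^ t) ⟨0, le_rfl, by simp [P1_const]⟩)
    have h8 : (NN ((1 + X) * P1 ^ (t + 3 * b)) (Γ * 2 ^ K) : ℝ) ≤ Ch (t + 3 * b) Y + 1 := by
      exact_mod_cast (NN_mono _ h2).trans (NN_le_Ch _ Y)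
    rw [show (1 + X) * P1 ^ t * (P1 ^ 3) ^ b = (1 + X) * P1 ^ (t + 3 * b) by ring]
    linarith
  have h8 : Y ≤ 3 * 2 ^ K * Γ := by
    rw [pow_succ] at h4
    nlinarith
  rw [← sum_ind, sum_Ico_eq_sum_range, Nat.add_sub_cancel_left]
  refine (sum_le_sum_of_subset_of_nonneg (range_subset_range.2 h8)
    fun _ _ _ => ind_nonneg _).trans ?_
  rw [sum_range_mul (fun i => ind ((Ch (a + i) Y : ℝ) < c / (4 * Γ) * Y))]
  refine (sum_le_card_nsmul _ _ (3 * (3 * (ε / 9) * 2 ^ K)) fun j _ => ?_).trans ?_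
  · rw [sum_range_mul (fun i => ind ((Ch (a + (3 * 2 ^ K * j + i)) Y : ℝ) < c / (4 * Γ) * Y)),
      sum_comm]
    refine (sum_le_card_nsmul _ _ (3 * (ε / 9) * 2 ^ K) fun i _ => ?_).trans (by simp)
    refine le_trans (le_of_eq (sum_congr rfl fun b _ => ?_)) (h7 (a + 3 * 2 ^ K * j + i))
    rw [show a + (3 * 2 ^ K * j + (3 * b + i)) = a + 3 * 2 ^ K * j + i + 3 * b by ring]
  · rw [card_range, nsmul_eq_mul]
    refine le_trans (le_of_eq (by ring)) (mul_le_mul_of_nonneg_left h2' hε.le)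

end Pool.Agent.Lib.MP_a3366f_nt.Av
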